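import Pool.Agent.Zeta579.StripK

/-!
# Linear forms as contour integrals, general order of derivation `k ≥ 1`
-/

namespace Pool.Agent.Zeta579

open Filter Topology Set Complex MeasureTheory

theorem tendsto_sum_iteratedDerivK {k0 : ℕ} {R : ℂ → ℂ} {a M : ℝ} {m0 : ℤ} (ha : a < m0 + 1 / 2)
    (hR : DifferentiableOn ℂ R {t | a < t.re})
    (hM : ∀ t : ℂ, (m0 : ℝ) + 1 / 2 ≤ t.re → ‖R t‖ ≤ M)
    (hdec : ∀ ε > 0, ∃ X : ℝ, ∀ t : ℂ, X ≤ t.re → ‖R t‖ ≤ ε) :
    Tendsto (fun N : ℕ => ∑ j ∈ Finset.range N,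
      iteratedDeriv (k0 + 1) R ((m0 : ℂ) + 1 + j) / ((k0 + 1).factorial : ℂ)) atTop
      (𝓝 (-(IRK (k0 + 1) R m0) / (2 * Real.pi))) := by
  have hpi : (Real.pi : ℂ) ≠ 0 := by
    exact_mod_cast Real.pi_ne_zero
  have hstep : ∀ j : ℕ, iteratedDeriv (k0 + 1) R ((m0 : ℂ) + 1 + j) / ((k0 + 1).factorial : ℂ) =
      IRK (k0 + 1) R (m0 + (j + 1 : ℕ)) / (2 * Real.pi) -
        IRK (k0 + 1) R (m0 + (j : ℕ)) / (2 * Real.pi) := by
    intro j
    have h := stripK (k0 := k0) (R := R) (a := a) (M := M) (m := m0 + (j + 1 : ℕ)) ?_ hR ?_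
    · have e1 : (m0 + (j + 1 : ℕ) : ℤ) - 1 = m0 + (j : ℕ) := by push_cast; ring
      rw [e1] at h
      have e2 : (((m0 + (j + 1 : ℕ) : ℤ)) : ℂ) = (m0 : ℂ) + 1 + j := by push_cast; ring
      rw [e2] at h
      rw [← sub_div, h]
      field_simp
    · push_cast
      have : (0 : ℝ) ≤ j := Nat.cast_nonneg j
      linarith
    · intro t h1 _
      apply hM
      have : (0 : ℝ) ≤ j := Nat.cast_nonneg j
      push_cast at h1
      linarith
  have hsum : ∀ N : ℕ, ∑ j ∈ Finset.range N,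
      iteratedDeriv (k0 + 1) R ((m0 : ℂ) + 1 + j) / ((k0 + 1).factorial : ℂ) =
      IRK (k0 + 1) R (m0 + (N : ℕ)) / (2 * Real.pi) - IRK (k0 + 1) R m0 / (2 * Real.pi) := by
    intro N
    rw [Finset.sum_congr rfl fun j _ => hstep j]
    rw [Finset.sum_range_sub (fun j : ℕ => IRK (k0 + 1) R (m0 + (j : ℕ)) / (2 * (Real.pi : ℂ)))]
    simp
  obtain ⟨B, hB0, hB⟩ := norm_IRK_le k0
  have hlim : Tendsto (fun N : ℕ => IRK (k0 + 1) R (m0 + (N : ℕ))) atTop (𝓝 0) := by
    have hint : Integrable fun y : ℝ => Real.exp (-(2 * Real.pi * |y|)) :=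
      integrable_exp_abs (by positivity)
    set J := ∫ y : ℝ, Real.exp (-(2 * Real.pi * |y|)) with hJ
    have hJ0 : 0 ≤ J := integral_nonneg fun y => by positivity
    rw [Metric.tendsto_atTop]
    intro ε hε
    obtain ⟨X, hX⟩ := hdec (ε / (2 * (B * J + 1))) (by positivity)
    obtain ⟨N, hN⟩ := exists_nat_ge (X - m0)
    refine ⟨N, fun m hm => ?_⟩
    rw [dist_zero_right]
    have h1 : ‖IRK (k0 + 1) R (m0 + (m : ℕ))‖ ≤
        B * ∫ y : ℝ, (ε / (2 * (B * J + 1))) * Real.exp (-(2 * Real.pi * |y|)) := by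
      refine hB R _ _ (hint.const_mul _) fun y => ?_
      refine mul_le_mul_of_nonneg_right (hX _ ?_) (Real.exp_pos _).le
      have : (N : ℝ) ≤ m := by exact_mod_cast hm
      simp
      linarith
    rw [integral_const_mul, ← hJ] at h1
    refine h1.trans_lt ?_
    have h2 : B * (ε / (2 * (B * J + 1)) * J) = ε * (B * J) / (2 * (B * J + 1)) := by ring
    have hBJ : 0 ≤ B * J := by positivity
    rw [h2, div_lt_iff₀ (by positivity)]
    nlinarith
  simp_rw [hsum]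
  have h2 := (hlim.div_const (2 * (Real.pi : ℂ))).sub_const (IRK (k0 + 1) R m0 / (2 * Real.pi))
  rw [zero_div, zero_sub] at h2
  rw [neg_div]
  exact h2

/-! ### partial fractions -/

/-- `∑_{m > M} 1 / m ^ s` -/
noncomputable def tl (s M : ℕ) : ℝ := ∑' m : ℕ, 1 / ((m : ℝ) + M + 1) ^ s

/-- a finite sum of partial fractions -/
noncomputable def pfs (L : Finset ℕ) (J : ℕ) (c : ℕ → ℕ → ℂ) (t : ℂ) : ℂ :=
  ∑ l ∈ L, ∑ i ∈ Finset.Icc 1 J, c l i / (t + l) ^ i

theorem hasDerivAt_inv_pow (c l : ℂ) (i : ℕ) {t : ℂ} (h : t + l ≠ 0) :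
    HasDerivAt (fun t => c / (t + l) ^ i) ((-(i : ℂ) * c) / (t + l) ^ (i + 1)) t := by
  have h1 : HasDerivAt (fun t : ℂ => t + l) 1 t := (hasDerivAt_id t).add_const l
  have h2 : HasDerivAt (fun t : ℂ => (t + l) ^ i) ((i : ℂ) * (t + l) ^ (i - 1) * 1) t := h1.fun_pow i
  have h3 : HasDerivAt (fun t : ℂ => ((t + l) ^ i)⁻¹)
      (-((i : ℂ) * (t + l) ^ (i - 1) * 1) / ((t + l) ^ i) ^ 2) t := h2.fun_inv (pow_ne_zero i h)
  have h4 := h3.const_mul c
  have e : (fun t : ℂ => c / (t + l) ^ i) = fun t => c * ((t + l) ^ i)⁻¹ := by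
    funext t; rw [div_eq_mul_inv]
  rw [e]
  refine h4.congr_deriv ?_
  rcases i with _ | i
  · simp
  · simp only [Nat.add_sub_cancel, mul_one]
    field_simp
    ring

theorem ne_of_re_pos' {z : ℂ} (h : 0 < z.re) : z ≠ 0 := by
  rintro rfl
  simp at h

/-- iterated derivatives of a partial fraction sum -/
theorem iteratedDeriv_pfs {L : Finset ℕ} {J : ℕ} (c : ℕ → ℕ → ℂ) {l0 : ℕ} (hL : ∀ l ∈ L, l0 ≤ l)
    (k : ℕ) : ∀ {t : ℂ}, -(l0 : ℝ) < t.re →
    iteratedDeriv k (pfs L J c) t = ∑ l ∈ L, ∑ i ∈ Finset.Icc 1 J,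
      ((-1) ^ k * (i.ascFactorial k : ℂ)) * c l i / (t + l) ^ (i + k) := by
  induction k with
  | zero =>
    intro t _
    simp [pfs]
  | succ k ih =>
    intro t ht
    have hopen : {t : ℂ | -(l0 : ℝ) < t.re} ∈ 𝓝 t :=
      (isOpen_lt continuous_const Complex.continuous_re).mem_nhds ht
    have h1 : iteratedDeriv k (pfs L J c) =ᶠ[𝓝 t] fun t => ∑ l ∈ L, ∑ i ∈ Finset.Icc 1 J,
        ((-1) ^ k * (i.ascFactorial k : ℂ)) * c l i / (t + l) ^ (i + k) := by
      filter_upwards [hopen] with s hs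
      exact ih hs
    rw [iteratedDeriv_succ, h1.deriv_eq]
    have h2 : HasDerivAt (fun t : ℂ => ∑ l ∈ L, ∑ i ∈ Finset.Icc 1 J,
        ((-1) ^ k * (i.ascFactorial k : ℂ)) * c l i / (t + l) ^ (i + k))
        (∑ l ∈ L, ∑ i ∈ Finset.Icc 1 J, (-((i + k : ℕ) : ℂ) *
          (((-1) ^ k * (i.ascFactorial k : ℂ)) * c l i)) / (t + l) ^ (i + k + 1)) t := by
      refine HasDerivAt.fun_sum fun l hl => HasDerivAt.fun_sum fun i _ => ?_
      refine hasDerivAt_inv_pow _ _ _ (ne_of_re_pos' ?_)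
      have : (l0 : ℝ) ≤ l := by exact_mod_cast hL l hl
      simp
      linarith
    rw [h2.deriv]
    refine Finset.sum_congr rfl fun l _ => Finset.sum_congr rfl fun i _ => ?_
    rw [Nat.ascFactorial_succ]
    push_cast
    have e : i + k + 1 = i + (k + 1) := by ring
    rw [e]
    congr 1
    ring

theorem summable_tl {s : ℕ} (hs : 2 ≤ s) (M : ℕ) :
    Summable fun m : ℕ => 1 / ((m : ℝ) + M + 1) ^ s := by
  have h1 := (summable_nat_add_iff (M + 1)).2 (Real.summable_one_div_nat_pow.2 (show 1 < s by omega))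
  refine h1.congr fun m => ?_
  push_cast
  rw [add_assoc]

theorem norm_pfs_le {L : Finset ℕ} {J : ℕ} (c : ℕ → ℕ → ℂ) {l0 : ℕ} (hL : ∀ l ∈ L, l0 ≤ l)
    {t : ℂ} {x : ℝ} (hx : 1 ≤ x) (ht : x - (l0 : ℝ) ≤ t.re) :
    ‖pfs L J c t‖ ≤ (∑ l ∈ L, ∑ i ∈ Finset.Icc 1 J, ‖c l i‖) * (1 / x) := by
  unfold pfs
  rw [Finset.sum_mul]
  refine (norm_sum_le _ _).trans (Finset.sum_le_sum fun l hl => ?_)
  rw [Finset.sum_mul]
  refine (norm_sum_le _ _).trans (Finset.sum_le_sum fun i hi => ?_)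
  rw [norm_div, div_eq_mul_one_div]
  refine mul_le_mul_of_nonneg_left ?_ (norm_nonneg _)
  have h1 : x ≤ ‖t + l‖ := by
    have h2 := Complex.re_le_norm (t + l)
    have : (l0 : ℝ) ≤ l := by exact_mod_cast hL l hl
    simp at h2
    linarith
  rw [norm_pow]
  have hi1 := (Finset.mem_Icc.1 hi).1
  have h3 : x ≤ ‖t + l‖ ^ i := by
    calc x ≤ ‖t + l‖ := h1
      _ = ‖t + l‖ ^ 1 := (pow_one _).symm
      _ ≤ ‖t + l‖ ^ i := pow_le_pow_right₀ (hx.trans h1) hi1
  exact one_div_le_one_div_of_le (by linarith) h3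

/-- **The linear form as a contour integral.** -/
theorem linearForm_eq_IRK {k0 : ℕ} {L : Finset ℕ} {J : ℕ} (c : ℕ → ℕ → ℂ) {M : ℕ}
    (hL : ∀ l ∈ L, M + 1 ≤ l) :
    ∑ l ∈ L, ∑ i ∈ Finset.Icc 1 J, c l i * (((i + k0).choose (k0 + 1) : ℕ) : ℂ) *
        ((tl (i + (k0 + 1)) (l - M) : ℝ) : ℂ) =
      (-1) ^ (k0 + 1) * (-(IRK (k0 + 1) (pfs L J c) (-(M : ℤ))) / (2 * Real.pi)) := by
  have h1 := tendsto_sum_iteratedDerivK (k0 := k0) (R := pfs L J c) (a := -((M + 1 : ℕ) : ℝ))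
    (M := (∑ l ∈ L, ∑ i ∈ Finset.Icc 1 J, ‖c l i‖) * 2)
    (m0 := -(M : ℤ)) (by push_cast; linarith) ?_ ?_ ?_
  · have h2 : Tendsto (fun N : ℕ => ∑ j ∈ Finset.range N,
        iteratedDeriv (k0 + 1) (pfs L J c) (((-(M : ℤ) : ℤ) : ℂ) + 1 + j) /
          ((k0 + 1).factorial : ℂ)) atTop (𝓝 ((-1) ^ (k0 + 1) *
        (∑ l ∈ L, ∑ i ∈ Finset.Icc 1 J, c l i * (((i + k0).choose (k0 + 1) : ℕ) : ℂ) *
        ((tl (i + (k0 + 1)) (l - M) : ℝ) : ℂ)))) := by
      have h3 : ∀ N : ℕ, ∑ j ∈ Finset.range N,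
          iteratedDeriv (k0 + 1) (pfs L J c) (((-(M : ℤ) : ℤ) : ℂ) + 1 + j) /
            ((k0 + 1).factorial : ℂ) =
          (-1) ^ (k0 + 1) * ∑ l ∈ L, ∑ i ∈ Finset.Icc 1 J,
            c l i * (((i + k0).choose (k0 + 1) : ℕ) : ℂ) *
              (((∑ j ∈ Finset.range N,
                1 / ((j : ℝ) + (l - M : ℕ) + 1) ^ (i + (k0 + 1)) : ℝ)) : ℂ) := by
        intro N
        have h4 : ∀ j ∈ Finset.range N,
            iteratedDeriv (k0 + 1) (pfs L J c) (((-(M : ℤ) : ℤ) : ℂ) + 1 + j) /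
              ((k0 + 1).factorial : ℂ) =
            (-1) ^ (k0 + 1) * ∑ l ∈ L, ∑ i ∈ Finset.Icc 1 J,
              c l i * (((i + k0).choose (k0 + 1) : ℕ) : ℂ) *
                (((1 / ((j : ℝ) + (l - M : ℕ) + 1) ^ (i + (k0 + 1)) : ℝ)) : ℂ) := by
          intro j _
          rw [iteratedDeriv_pfs c (l0 := M + 1) hL]
          · rw [Finset.sum_div, Finset.mul_sum]
            refine Finset.sum_congr rfl fun l hl => ?_
            rw [Finset.sum_div, Finset.mul_sum]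
            refine Finset.sum_congr rfl fun i hi => ?_
            have hi1 := (Finset.mem_Icc.1 hi).1
            have hl' : M ≤ l := by have := hL l hl; omega
            have hf : ((k0 + 1).factorial : ℂ) ≠ 0 := by exact_mod_cast Nat.factorial_ne_zero _
            have h5 : (i.ascFactorial (k0 + 1) : ℂ) =
                ((k0 + 1).factorial : ℂ) * (((i + k0).choose (k0 + 1) : ℕ) : ℂ) := by
              have h6 := Nat.ascFactorial_eq_factorial_mul_choose' i (k0 + 1)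
              have e : i + (k0 + 1) - 1 = i + k0 := by omega
              rw [e] at h6
              exact_mod_cast h6
            rw [h5]
            have e2 : (((-(M : ℤ) : ℤ) : ℂ) + 1 + j + l) = (j : ℂ) + ((l - M : ℕ) : ℂ) + 1 := by
              push_cast [Nat.cast_sub hl']
              ring
            rw [e2]
            push_cast
            field_simp
          · have : (0 : ℝ) ≤ j := Nat.cast_nonneg j
            simp
            linarith
        rw [Finset.sum_congr rfl h4, ← Finset.mul_sum, Finset.sum_comm]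
        congr 1
        refine Finset.sum_congr rfl fun l _ => ?_
        rw [Finset.sum_comm]
        refine Finset.sum_congr rfl fun i _ => ?_
        rw [← Finset.mul_sum, Complex.ofReal_sum]
      simp_rw [h3]
      refine Tendsto.const_mul _ ?_
      refine tendsto_finsetSum _ fun l _ => tendsto_finsetSum _ fun i hi => ?_
      refine Tendsto.const_mul _ ?_
      refine (Complex.continuous_ofReal.tendsto _).comp ?_
      have hi1 := (Finset.mem_Icc.1 hi).1
      exact (summable_tl (by omega) (l - M)).hasSum.tendsto_sum_nat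
    have h6 := tendsto_nhds_unique h2 h1
    have h7 : ((-1 : ℂ) ^ (k0 + 1)) * (-1) ^ (k0 + 1) = 1 := by
      rw [← mul_pow]; norm_num
    rw [← h6, ← mul_assoc, h7, one_mul]
  · intro t ht
    refine DifferentiableAt.differentiableWithinAt ?_
    unfold pfs
    refine DifferentiableAt.fun_sum fun l hl => DifferentiableAt.fun_sum fun i _ => ?_
    refine (hasDerivAt_inv_pow _ _ _ (ne_of_re_pos' ?_)).differentiableAt
    have : ((M + 1 : ℕ) : ℝ) ≤ l := by exact_mod_cast hL l hl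
    have ht' : -((M + 1 : ℕ) : ℝ) < t.re := ht
    simp only [add_re, natCast_re]
    linarith
  · intro t ht
    push_cast at ht
    unfold pfs
    rw [Finset.sum_mul]
    refine (norm_sum_le _ _).trans (Finset.sum_le_sum fun l hl => ?_)
    rw [Finset.sum_mul]
    refine (norm_sum_le _ _).trans (Finset.sum_le_sum fun i hi => ?_)
    rw [norm_div, div_eq_mul_one_div]
    refine mul_le_mul_of_nonneg_left ?_ (norm_nonneg _)
    have h1 : 1 ≤ ‖t + l‖ := by
      have h2 := Complex.re_le_norm (t + l)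
      have : ((M : ℝ) + 1) ≤ l := by exact_mod_cast hL l hl
      simp at h2
      linarith
    rw [norm_pow]
    have h3 : 1 ≤ ‖t + l‖ ^ i := one_le_pow₀ h1
    have h4 : 1 / ‖t + l‖ ^ i ≤ 1 := by rw [div_le_one (by linarith)]; exact h3
    linarith
  · intro ε hε
    set C := ∑ l ∈ L, ∑ i ∈ Finset.Icc 1 J, ‖c l i‖ with hC
    have hC0 : 0 ≤ C := Finset.sum_nonneg fun _ _ => Finset.sum_nonneg fun _ _ => norm_nonneg _
    refine ⟨(1 + C / ε) - ((M + 1 : ℕ) : ℝ), fun t ht => ?_⟩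
    refine (norm_pfs_le c hL (x := 1 + C / ε) (by have := div_nonneg hC0 hε.le; linarith) ht).trans ?_
    have h7 : 0 < 1 + C / ε := by have := div_nonneg hC0 hε.le; linarith
    rw [← hC, mul_one_div, div_le_iff₀ h7]
    have h8 : ε * (C / ε) = C := by field_simp
    nlinarith

/-- **Size of the linear form** from a bound of the rational function on the line
`Re t = -M + 1/2`. -/
theorem norm_linearForm_le (k0 : ℕ) : ∃ B : ℝ, 0 ≤ B ∧ ∀ (L : Finset ℕ) (J : ℕ) (c : ℕ → ℕ → ℂ)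
    (M : ℕ) (_ : ∀ l ∈ L, M + 1 ≤ l) (R : ℂ → ℂ) (g : ℝ → ℝ) (_ : Integrable g)
    (_ : ∀ t : ℂ, t.re = -(M : ℝ) + 1 / 2 → R t = pfs L J c t)
    (_ : ∀ y : ℝ, ‖R (-(M : ℂ) + 1 / 2 + y * I)‖ * Real.exp (-(2 * Real.pi * |y|)) ≤ g y),
    ‖∑ l ∈ L, ∑ i ∈ Finset.Icc 1 J, c l i * (((i + k0).choose (k0 + 1) : ℕ) : ℂ) *
        ((tl (i + (k0 + 1)) (l - M) : ℝ) : ℂ)‖ ≤ B * ∫ y : ℝ, g y := by
  obtain ⟨B, hB0, hB⟩ := norm_IRK_le k0
  refine ⟨B, hB0, fun L J c M hL R g hg hRp hR => ?_⟩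
  rw [linearForm_eq_IRK c hL, norm_mul, norm_pow, norm_neg, norm_one, one_pow, one_mul, norm_div,
    norm_neg]
  have h1 : ‖IRK (k0 + 1) (pfs L J c) (-(M : ℤ))‖ ≤ B * ∫ y : ℝ, g y := by
    refine hB _ _ g hg fun y => ?_
    have e : (((-(M : ℤ) : ℤ)) : ℂ) + 1 / 2 + y * I = -(M : ℂ) + 1 / 2 + y * I := by push_cast; ring
    rw [e, ← hRp]
    · exact hR y
    · simp
  have h6 : ‖(2 * (Real.pi : ℂ))‖ = 2 * Real.pi := by
    rw [norm_mul, Complex.norm_real, Real.norm_eq_abs, abs_of_pos Real.pi_pos]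
    simp
  rw [h6]
  refine (div_le_self (norm_nonneg _) ?_).trans h1
  have := Real.pi_gt_three
  linarith

/-! ### the final exponential estimate -/

theorem pow_le_exp' {δ : ℝ} (hδ : 0 < δ) (A : ℕ) {x : ℝ} (hx : 0 ≤ x) :
    (x + 1) ^ A ≤ (A.factorial / δ ^ A * Real.exp δ) * Real.exp (δ * x) := by
  have h1 := Real.pow_div_factorial_le_exp (x := δ * (x + 1)) (by positivity) A
  rw [mul_pow, div_le_iff₀ (by positivity), mul_add, Real.exp_add, mul_one] at h1
  rw [div_mul_eq_mul_div, div_mul_eq_mul_div, le_div_iff₀ (by positivity)]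
  linarith

theorem integrable_poly_exp' {δ : ℝ} (hδ : 0 < δ) (A : ℕ) :
    Integrable fun y : ℝ => (|y| + 1) ^ A * Real.exp (-(δ * |y|)) := by
  have h1 := (integrable_exp_abs (c := δ / 2) (by positivity)).const_mul
    (A.factorial / (δ / 2) ^ A * Real.exp (δ / 2))
  refine h1.mono' (by fun_prop) ?_
  filter_upwards with y
  rw [Real.norm_eq_abs, abs_of_nonneg (by positivity)]
  calc (|y| + 1) ^ A * Real.exp (-(δ * |y|))
      ≤ ((A.factorial / (δ / 2) ^ A * Real.exp (δ / 2)) * Real.exp (δ / 2 * |y|)) *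
        Real.exp (-(δ * |y|)) := by
        gcongr
        exact pow_le_exp' (by positivity) A (abs_nonneg y)
    _ = _ := by
        rw [mul_assoc, ← Real.exp_add]
        congr 2
        ring

/-- **Exponential bound for a sequence of linear forms.**
`S n` is the linear form `∑ c n l i * C(i+k0,k0+1) * tail (i+k0+1) (l - M n)`;
`R n` is the rational function with these partial fractions, of size
`C (n+|y|+1)^A exp(-α n + 2π|y| - δ|y|)` on the line `Re t = - M n + 1/2`. -/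
theorem exp_bound_linearForm (k0 : ℕ) {S : ℕ → ℂ} {L : ℕ → Finset ℕ} {J : ℕ}
    {c : ℕ → ℕ → ℕ → ℂ} {M : ℕ → ℕ} {R : ℕ → ℂ → ℂ} {Q : ℕ → Prop} {C α δ β : ℝ} {A : ℕ}
    (hδ : 0 < δ) (hα : β < α)
    (hL : ∀ n, Q n → ∀ l ∈ L n, M n + 1 ≤ l)
    (hS : ∀ n, Q n → S n = ∑ l ∈ L n, ∑ i ∈ Finset.Icc 1 J,
      c n l i * (((i + k0).choose (k0 + 1) : ℕ) : ℂ) * ((tl (i + (k0 + 1)) (l - M n) : ℝ) : ℂ))
    (hR : ∀ n, Q n → ∀ t : ℂ, t.re = -(M n : ℝ) + 1 / 2 → R n t = pfs (L n) J (c n) t)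
    (hsize : ∀ n, Q n → ∀ y : ℝ, ‖R n (-(M n : ℂ) + 1 / 2 + y * I)‖ ≤
      C * ((n : ℝ) + |y| + 1) ^ A * Real.exp (-α * n + 2 * Real.pi * |y| - δ * |y|)) :
    ∃ N : ℕ, ∀ n ≥ N, Q n → ‖S n‖ ≤ Real.exp (-β * n) := by
  obtain ⟨B, hB0, hB⟩ := norm_linearForm_le k0
  set J0 := ∫ y : ℝ, (|y| + 1) ^ A * Real.exp (-(δ * |y|)) with hJ
  have hJ0 : 0 ≤ J0 := integral_nonneg fun y => by positivity
  have hmain : ∀ n : ℕ, Q n →
      ‖S n‖ ≤ (B * (|C| * J0)) * (((n : ℝ) + 1) ^ A * Real.exp (-α * n)) := by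
    intro n hQ
    have hn' : (0 : ℝ) ≤ n := Nat.cast_nonneg n
    have hg : Integrable fun y : ℝ => (|C| * (((n : ℝ) + 1) ^ A * Real.exp (-α * n))) *
        ((|y| + 1) ^ A * Real.exp (-(δ * |y|))) := (integrable_poly_exp' hδ A).const_mul _
    have h2 := hB (L n) J (c n) (M n) (hL n hQ) (R n) _ hg (hR n hQ) ?_
    · rw [← hS n hQ, integral_const_mul, ← hJ] at h2
      refine h2.trans (le_of_eq ?_)
      ring
    · intro y
      have h3 := hsize n hQ y
      have hpow : ((n : ℝ) + |y| + 1) ^ A ≤ ((n : ℝ) + 1) ^ A * (|y| + 1) ^ A := by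
        rw [← mul_pow]
        have := abs_nonneg y
        apply pow_le_pow_left₀ (by positivity)
        nlinarith
      calc ‖R n (-(M n : ℂ) + 1 / 2 + y * I)‖ * Real.exp (-(2 * Real.pi * |y|))
          ≤ (C * ((n : ℝ) + |y| + 1) ^ A * Real.exp (-α * n + 2 * Real.pi * |y| - δ * |y|)) *
            Real.exp (-(2 * Real.pi * |y|)) := by gcongr
        _ ≤ (|C| * (((n : ℝ) + 1) ^ A * (|y| + 1) ^ A) *
            Real.exp (-α * n + 2 * Real.pi * |y| - δ * |y|)) *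
            Real.exp (-(2 * Real.pi * |y|)) := by
            gcongr
            exact le_abs_self C
        _ = _ := by
            have : Real.exp (-α * n + 2 * Real.pi * |y| - δ * |y|) =
              Real.exp (-α * n) * Real.exp (2 * Real.pi * |y|) * Real.exp (-(δ * |y|)) := by
              rw [← Real.exp_add, ← Real.exp_add]
              congr 1
            rw [this]
            have h4 : Real.exp (2 * Real.pi * |y|) * Real.exp (-(2 * Real.pi * |y|)) = 1 := by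
              rw [← Real.exp_add]; simp
            linear_combination (|C| * (((n : ℝ) + 1) ^ A * (|y| + 1) ^ A) *
              Real.exp (-α * n) * Real.exp (-(δ * |y|))) * h4
  -- absorb the polynomial
  set γ := α - β with hγ
  have hγ0 : 0 < γ := by rw [hγ]; linarith
  obtain ⟨N1, hN1⟩ := exists_nat_ge
    (((B * (|C| * J0)) * (A.factorial / (γ / 2) ^ A * Real.exp (γ / 2))) / (γ / 2))
  refine ⟨N1, fun n hn hQ => ?_⟩
  refine (hmain n hQ).trans ?_
  have hn1 : (N1 : ℝ) ≤ n := by exact_mod_cast hn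
  have h7 := pow_le_exp' (δ := γ / 2) (by positivity) A (x := (n : ℝ)) (Nat.cast_nonneg n)
  have h8 : ((B * (|C| * J0)) * (A.factorial / (γ / 2) ^ A * Real.exp (γ / 2))) ≤
      Real.exp (γ / 2 * n) := by
    have h9 := hN1.trans hn1
    rw [div_le_iff₀ (by positivity)] at h9
    refine h9.trans ?_
    have := Real.add_one_le_exp (γ / 2 * n)
    linarith
  calc (B * (|C| * J0)) * (((n : ℝ) + 1) ^ A * Real.exp (-α * n))
      ≤ (B * (|C| * J0)) * (((A.factorial / (γ / 2) ^ A * Real.exp (γ / 2)) *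
          Real.exp (γ / 2 * n)) * Real.exp (-α * n)) := by gcongr
    _ = ((B * (|C| * J0)) * (A.factorial / (γ / 2) ^ A * Real.exp (γ / 2))) *
          Real.exp (γ / 2 * n) * Real.exp (-α * n) := by ring
    _ ≤ Real.exp (γ / 2 * n) * Real.exp (γ / 2 * n) * Real.exp (-α * n) := by gcongr
    _ = Real.exp (-β * n) := by
        rw [← Real.exp_add, ← Real.exp_add]
        congr 1
        rw [hγ]
        ring

end Pool.Agent.Zeta579
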