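import Pool.Agent.Zeta579.Strip

/-!
# The sum of the second derivatives over the integers to the right of a half-integer line
-/

namespace Pool.Agent.Zeta579

open Filter Topology Set Complex MeasureTheory

theorem tendsto_sum_iteratedDeriv {R : ℂ → ℂ} {a M : ℝ} {k0 : ℤ} (ha : a < k0 + 1 / 2)
    (hR : DifferentiableOn ℂ R {t | a < t.re})
    (hM : ∀ t : ℂ, (k0 : ℝ) + 1 / 2 ≤ t.re → ‖R t‖ ≤ M)
    (hdec : ∀ ε > 0, ∃ X : ℝ, ∀ t : ℂ, X ≤ t.re → ‖R t‖ ≤ ε) :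
    Tendsto (fun N : ℕ => ∑ j ∈ Finset.range N, iteratedDeriv 2 R ((k0 : ℂ) + 1 + j)) atTop
      (𝓝 (-(IR R k0) / Real.pi)) := by
  have hpi : (Real.pi : ℂ) ≠ 0 := by
    exact_mod_cast Real.pi_ne_zero
  have hstep : ∀ j : ℕ, iteratedDeriv 2 R ((k0 : ℂ) + 1 + j) =
      IR R (k0 + (j + 1 : ℕ)) / Real.pi - IR R (k0 + (j : ℕ)) / Real.pi := by
    intro j
    have h := strip (R := R) (a := a) (M := M) (k := k0 + (j + 1 : ℕ)) ?_ hR ?_
    · have e1 : (k0 + (j + 1 : ℕ) : ℤ) - 1 = k0 + (j : ℕ) := by push_cast; ring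
      rw [e1] at h
      have e2 : (((k0 + (j + 1 : ℕ) : ℤ)) : ℂ) = (k0 : ℂ) + 1 + j := by push_cast; ring
      rw [e2] at h
      field_simp
      rw [h]
      ring
    · push_cast
      have : (0 : ℝ) ≤ j := Nat.cast_nonneg j
      linarith
    · intro t h1 _
      apply hM
      have : (0 : ℝ) ≤ j := Nat.cast_nonneg j
      push_cast at h1
      linarith
  have hsum : ∀ N : ℕ, ∑ j ∈ Finset.range N, iteratedDeriv 2 R ((k0 : ℂ) + 1 + j) =
      IR R (k0 + (N : ℕ)) / Real.pi - IR R k0 / Real.pi := by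
    intro N
    rw [Finset.sum_congr rfl fun j _ => hstep j]
    rw [Finset.sum_range_sub (fun j : ℕ => IR R (k0 + (j : ℕ)) / (Real.pi : ℂ))]
    simp
  have hlim : Tendsto (fun N : ℕ => IR R (k0 + (N : ℕ))) atTop (𝓝 0) := by
    set J := ∫ y : ℝ, 4 * Real.pi ^ 3 * Real.exp (-(2 * Real.pi * |y|)) with hJ
    have hJ0 : 0 ≤ J := integral_nonneg fun y => by positivity
    rw [Metric.tendsto_atTop]
    intro ε hε
    obtain ⟨X, hX⟩ := hdec (ε / (2 * (J + 1))) (by positivity)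
    obtain ⟨N, hN⟩ := exists_nat_ge (X - k0)
    refine ⟨N, fun m hm => ?_⟩
    rw [dist_zero_right]
    have h1 : ‖IR R (k0 + (m : ℕ))‖ ≤ (ε / (2 * (J + 1))) * J := by
      apply norm_IR_le
      intro y
      apply hX
      have : (N : ℝ) ≤ m := by exact_mod_cast hm
      simp
      linarith
    refine h1.trans_lt ?_
    rw [div_mul_eq_mul_div, div_lt_iff₀ (by positivity)]
    nlinarith
  simp_rw [hsum]
  have h2 := (hlim.div_const (Real.pi : ℂ)).sub_const (IR R k0 / Real.pi)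
  rw [zero_div, zero_sub] at h2
  rw [neg_div]
  exact h2

/-- size of the integral from a pointwise bound on the line -/
theorem norm_IR_le_integral {R : ℂ → ℂ} {k : ℤ} {g : ℝ → ℝ} (hg : Integrable g)
    (hR : ∀ y : ℝ, ‖R ((k : ℂ) + 1 / 2 + y * I)‖ * Real.exp (-(2 * Real.pi * |y|)) ≤ g y) :
    ‖IR R k‖ ≤ 4 * Real.pi ^ 3 * ∫ y : ℝ, g y := by
  rw [← integral_const_mul]
  refine norm_integral_le_of_norm_le (hg.const_mul _) ?_
  filter_upwards with y
  rw [norm_mul]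
  have h1 := norm_Ker_half' k y
  calc ‖R ((k : ℂ) + 1 / 2 + y * I)‖ * ‖Ker ((k : ℂ) + 1 / 2 + y * I)‖
      ≤ ‖R ((k : ℂ) + 1 / 2 + y * I)‖ * (4 * Real.pi ^ 3 * Real.exp (-(2 * Real.pi * |y|))) := by
        gcongr
    _ = 4 * Real.pi ^ 3 * (‖R ((k : ℂ) + 1 / 2 + y * I)‖ * Real.exp (-(2 * Real.pi * |y|))) := by
        ring
    _ ≤ _ := by
        have := hR y
        gcongr

end Pool.Agent.Zeta579
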