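import Pool.Agent.Zeta579.Kernel

/-!
# The kernels `∑ 1/(t-m)^(k+1)`, as polynomials in the cotangent
-/

namespace Pool.Agent.Zeta579

open Filter Topology Set Complex

/-- the polynomials with `KerK k t = π^(k+1) * KQ k (cot π t)` -/
noncomputable def KQ : ℕ → Polynomial ℂ
  | 0 => Polynomial.X
  | (k + 1) => Polynomial.C (1 / ((k : ℂ) + 1)) * (1 + Polynomial.X ^ 2) *
      Polynomial.derivative (KQ k)

/-- the cotangent -/
noncomputable def ct (t : ℂ) : ℂ := cos (Real.pi * t) / sin (Real.pi * t)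

/-- the kernel `(-1)^k/k! * (d/dt)^k (π cot π t)` -/
noncomputable def KerK (k : ℕ) (t : ℂ) : ℂ := (Real.pi : ℂ) ^ (k + 1) * (KQ k).eval (ct t)

theorem ct_add_one (t : ℂ) : ct (t + 1) = ct t := by
  unfold ct
  rw [mul_add, mul_one, Complex.cos_add_pi, Complex.sin_add_pi, neg_div_neg_eq]

theorem ct_add_int (t : ℂ) (k : ℤ) : ct (t + k) = ct t := by
  induction k using Int.induction_on with
  | zero => simp
  | succ n ih =>
    have : t + ((n + 1 : ℤ) : ℂ) = (t + n) + 1 := by push_cast; ring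
    rw [this, ct_add_one]
    simpa using ih
  | pred n ih =>
    have : t + ((-(n : ℤ) : ℤ) : ℂ) = (t + ((-(n : ℤ) - 1 : ℤ) : ℂ)) + 1 := by push_cast; ring
    rw [this, ct_add_one] at ih
    exact ih

theorem KerK_add_int (k : ℕ) (t : ℂ) (m : ℤ) : KerK k (t + m) = KerK k t := by
  unfold KerK
  rw [ct_add_int]

theorem hasDerivAt_ct {t : ℂ} (h : sin (Real.pi * t) ≠ 0) :
    HasDerivAt ct (-(Real.pi * (1 + ct t ^ 2))) t := by
  have h1 : HasDerivAt (fun t : ℂ => (Real.pi : ℂ) * t) (Real.pi * 1) t :=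
    (hasDerivAt_id t).const_mul _
  have h2 := (Complex.hasDerivAt_cos (Real.pi * t)).comp t h1
  have h3 := (Complex.hasDerivAt_sin (Real.pi * t)).comp t h1
  have h4 := h2.fun_div h3 h
  refine h4.congr_deriv ?_
  unfold ct
  simp only [Function.comp]
  field_simp
  ring

theorem one_add_ct_sq {t : ℂ} (h : sin (Real.pi * t) ≠ 0) :
    1 + ct t ^ 2 = 1 / sin (Real.pi * t) ^ 2 := by
  unfold ct
  have := Complex.sin_sq_add_cos_sq (Real.pi * t)
  field_simp
  exact this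

theorem KerK_succ (k : ℕ) (t : ℂ) : KerK (k + 1) t = (Real.pi : ℂ) ^ (k + 2) *
    (1 / ((k : ℂ) + 1) * (1 + ct t ^ 2) * (Polynomial.derivative (KQ k)).eval (ct t)) := by
  unfold KerK
  rw [KQ]
  simp

theorem hasDerivAt_KerK (k : ℕ) {t : ℂ} (h : sin (Real.pi * t) ≠ 0) :
    HasDerivAt (KerK k) (-((k : ℂ) + 1) * KerK (k + 1) t) t := by
  have h1 := ((KQ k).hasDerivAt (ct t)).comp t (hasDerivAt_ct h)
  have h2 := h1.const_mul ((Real.pi : ℂ) ^ (k + 1))
  refine h2.congr_deriv ?_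
  rw [KerK_succ]
  have hk : ((k : ℂ) + 1) ≠ 0 := by exact_mod_cast Nat.succ_ne_zero k
  field_simp
  ring

theorem differentiableAt_KerK (k : ℕ) {t : ℂ} (h : sin (Real.pi * t) ≠ 0) :
    DifferentiableAt ℂ (KerK k) t := (hasDerivAt_KerK k h).differentiableAt

theorem exists_bound_poly (q : Polynomial ℂ) (r : ℝ) :
    ∃ B : ℝ, 0 ≤ B ∧ ∀ z : ℂ, ‖z‖ ≤ r → ‖q.eval z‖ ≤ B := by
  have hc : IsCompact (Metric.closedBall (0 : ℂ) r) := isCompact_closedBall 0 r
  obtain ⟨B, hB⟩ := hc.exists_bound_of_continuousOn (f := fun z => q.eval z)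
    q.continuous.continuousOn
  refine ⟨max B 0, le_max_right _ _, fun z hz => ?_⟩
  exact (hB z (by simpa using hz)).trans (le_max_left _ _)

theorem ct_half (m : ℤ) (y : ℝ) : ct ((m : ℂ) + 1 / 2 + y * I) =
    -I * ((Real.sinh (Real.pi * y) / Real.cosh (Real.pi * y) : ℝ) : ℂ) := by
  have h0 : (m : ℂ) + 1 / 2 + y * I = (1 / 2 + y * I) + m := by ring
  rw [h0, ct_add_int]
  unfold ct
  have h1 : (Real.pi : ℂ) * (1 / 2 + y * I) = ((Real.pi * y : ℝ) : ℂ) * I + Real.pi / 2 := by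
    push_cast; ring
  rw [h1, Complex.cos_add_pi_div_two, Complex.sin_add_pi_div_two, Complex.sin_mul_I,
    Complex.cos_mul_I]
  push_cast
  ring

/-- decay on the half-integer lines -/
theorem norm_KerK_half (k : ℕ) : ∃ B : ℝ, 0 ≤ B ∧ ∀ (m : ℤ) (y : ℝ),
    ‖KerK (k + 1) ((m : ℂ) + 1 / 2 + y * I)‖ ≤ B * Real.exp (-(2 * Real.pi * |y|)) := by
  obtain ⟨B, hB0, hB⟩ := exists_bound_poly (Polynomial.derivative (KQ k)) 1
  refine ⟨Real.pi ^ (k + 2) * (1 / ((k : ℝ) + 1) * 4 * B), by positivity, fun m y => ?_⟩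
  have hc := Real.cosh_pos (Real.pi * y)
  have h1 : ‖ct ((m : ℂ) + 1 / 2 + y * I)‖ ≤ 1 := by
    rw [ct_half, norm_mul, norm_neg, Complex.norm_I, one_mul, Complex.norm_real,
      Real.norm_eq_abs, abs_div, abs_of_pos hc, div_le_one hc, abs_le]
    constructor
    · have := Real.sinh_lt_cosh (-(Real.pi * y))
      rw [Real.sinh_neg, Real.cosh_neg] at this
      linarith
    · exact (Real.sinh_lt_cosh _).le
  have h2 : 1 + ct ((m : ℂ) + 1 / 2 + y * I) ^ 2 =
      ((1 / Real.cosh (Real.pi * y) ^ 2 : ℝ) : ℂ) := by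
    rw [ct_half, mul_pow, neg_sq, Complex.I_sq]
    have h3 := Real.cosh_sq (Real.pi * y)
    have h4 : (1 : ℝ) + (-1) * (Real.sinh (Real.pi * y) / Real.cosh (Real.pi * y)) ^ 2 =
      1 / Real.cosh (Real.pi * y) ^ 2 := by
      have hc' := hc.ne'
      field_simp
      linarith
    rw [← h4]
    push_cast
    ring
  rw [KerK_succ, h2, norm_mul, norm_mul, norm_mul, norm_pow, Complex.norm_real, Real.norm_eq_abs,
    abs_of_pos Real.pi_pos, Complex.norm_real, Real.norm_eq_abs, abs_of_pos (by positivity)]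
  have h5 : ‖(1 : ℂ) / ((k : ℂ) + 1)‖ = 1 / ((k : ℝ) + 1) := by
    rw [norm_div, norm_one]
    congr 1
    have : ((k : ℂ) + 1) = (((k : ℝ) + 1 : ℝ) : ℂ) := by push_cast; ring
    rw [this, Complex.norm_real, Real.norm_eq_abs, abs_of_pos (by positivity)]
  rw [h5]
  have h6 := inv_cosh_sq_le (Real.pi * y)
  rw [abs_mul, abs_of_pos Real.pi_pos] at h6
  have h7 := hB _ h1
  calc Real.pi ^ (k + 2) * (1 / ((k : ℝ) + 1) * (1 / Real.cosh (Real.pi * y) ^ 2) *
        ‖(Polynomial.derivative (KQ k)).eval (ct ((m : ℂ) + 1 / 2 + y * I))‖)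
      ≤ Real.pi ^ (k + 2) * (1 / ((k : ℝ) + 1) * (4 * Real.exp (-(2 * (Real.pi * |y|)))) * B) := by
        gcongr
    _ = _ := by
        have e : (2 * (Real.pi * |y|)) = 2 * Real.pi * |y| := by ring
        rw [e]; ring

/-- decay away from the real axis -/
theorem norm_KerK_le (k : ℕ) : ∃ B : ℝ, 0 ≤ B ∧ ∀ t : ℂ, 1 ≤ |t.im| →
    ‖KerK (k + 1) t‖ ≤ B * (1 / |t.im| ^ 2) := by
  obtain ⟨B, hB0, hB⟩ := exists_bound_poly (Polynomial.derivative (KQ k)) 2
  refine ⟨Real.pi ^ (k + 2) * (1 / ((k : ℝ) + 1) * B), by positivity, fun t ht => ?_⟩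
  have hpi := Real.pi_gt_three
  obtain ⟨b, hb⟩ : ∃ b, b = Real.pi * |t.im| := ⟨_, rfl⟩
  have hb1 : |t.im| ≤ b := by rw [hb]; nlinarith [abs_nonneg t.im]
  have hb0 : 1 ≤ b := ht.trans hb1
  have him : ((Real.pi : ℂ) * t).im = Real.pi * t.im := by simp
  have hbabs : |Real.pi * t.im| = b := by rw [abs_mul, abs_of_pos Real.pi_pos, hb]
  have h1 : Real.sinh b ≤ ‖sin (Real.pi * t)‖ := by
    have := norm_sin_ge (Real.pi * t)
    rwa [him, Real.abs_sinh, hbabs] at this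
  have h2 : ‖cos (Real.pi * t)‖ ≤ Real.cosh b := by
    have := norm_cos_le (Real.pi * t)
    rwa [him, ← Real.cosh_abs, hbabs] at this
  have h3 : b ≤ Real.sinh b := Real.self_le_sinh_iff.2 (by linarith)
  have h4 := cosh_le_two_sinh hb0
  have hs0 : 0 < Real.sinh b := by linarith
  have hsin : sin (Real.pi * t) ≠ 0 := by
    intro h
    rw [h, norm_zero] at h1
    linarith
  have h5 : ‖ct t‖ ≤ 2 := by
    unfold ct
    rw [norm_div, div_le_iff₀ (by linarith)]
    linarith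
  have h6 : ‖1 + ct t ^ 2‖ ≤ 1 / |t.im| ^ 2 := by
    rw [one_add_ct_sq hsin, norm_div, norm_one, norm_pow]
    have : |t.im| ≤ ‖sin (Real.pi * t)‖ := hb1.trans (h3.trans h1)
    gcongr
  rw [KerK_succ, norm_mul, norm_mul, norm_mul, norm_pow, Complex.norm_real, Real.norm_eq_abs,
    abs_of_pos Real.pi_pos]
  have h7 : ‖(1 : ℂ) / ((k : ℂ) + 1)‖ = 1 / ((k : ℝ) + 1) := by
    rw [norm_div, norm_one]
    congr 1
    have : ((k : ℂ) + 1) = (((k : ℝ) + 1 : ℝ) : ℂ) := by push_cast; ring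
    rw [this, Complex.norm_real, Real.norm_eq_abs, abs_of_pos (by positivity)]
  rw [h7]
  have h8 := hB _ h5
  calc Real.pi ^ (k + 2) * (1 / ((k : ℝ) + 1) * ‖1 + ct t ^ 2‖ *
        ‖(Polynomial.derivative (KQ k)).eval (ct t)‖)
      ≤ Real.pi ^ (k + 2) * (1 / ((k : ℝ) + 1) * (1 / |t.im| ^ 2) * B) := by gcongr
    _ = _ := by ring

/-- near the origin -/
theorem KerK_near_zero (k : ℕ) : ∃ H : ℂ → ℂ, AnalyticAt ℂ H 0 ∧
    ∀ᶠ s in 𝓝[≠] (0 : ℂ), KerK k s = 1 / s ^ (k + 1) + H s := by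
  induction k with
  | zero =>
    set f : ℂ → ℂ := fun s => sin (Real.pi * s) with hf
    have hfa : AnalyticAt ℂ f 0 := by
      rw [hf]
      fun_prop
    set g : ℂ → ℂ := dslope f 0 with hg
    have hga : AnalyticAt ℂ g 0 := by
      obtain ⟨p, hp⟩ := hfa
      exact ⟨_, hp.has_fpower_series_dslope_fslope⟩
    have hg0 : g 0 = Real.pi := by
      rw [hg, dslope_same]
      have h1 : HasDerivAt f (cos (Real.pi * 0) * (Real.pi * 1)) 0 := by
        have h2 : HasDerivAt (fun t : ℂ => (Real.pi : ℂ) * t) (Real.pi * 1) 0 :=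
          (hasDerivAt_id (0 : ℂ)).const_mul _
        exact (Complex.hasDerivAt_sin (Real.pi * 0)).comp 0 h2
      rw [h1.deriv]
      simp
    set N : ℂ → ℂ := fun s => Real.pi * cos (Real.pi * s) - g s with hN
    have hNa : AnalyticAt ℂ N 0 := by
      rw [hN]
      fun_prop
    set N1 : ℂ → ℂ := dslope N 0 with hN1
    have hN1a : AnalyticAt ℂ N1 0 := by
      obtain ⟨p, hp⟩ := hNa
      exact ⟨_, hp.has_fpower_series_dslope_fslope⟩
    have hpc : (Real.pi : ℂ) ≠ 0 := by exact_mod_cast Real.pi_ne_zero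
    refine ⟨fun s => N1 s / g s, hN1a.fun_div hga (by rw [hg0]; exact hpc), ?_⟩
    have hgne : ∀ᶠ s in 𝓝 (0 : ℂ), g s ≠ 0 :=
      hga.continuousAt.eventually_ne (by rw [hg0]; exact hpc)
    filter_upwards [self_mem_nhdsWithin, hgne.filter_mono nhdsWithin_le_nhds] with s hs hgs
    have hs0 : s ≠ 0 := hs
    have e1 : sin (Real.pi * s) = s * g s := by
      have := sub_smul_dslope f 0 s
      rw [smul_eq_mul, sub_zero, ← hg] at this
      rw [this]
      simp [hf]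
    have e2 : N s = s * N1 s := by
      have := sub_smul_dslope N 0 s
      rw [smul_eq_mul, sub_zero, ← hN1] at this
      rw [this]
      have : N 0 = 0 := by
        rw [hN]
        simp [hg0]
      rw [this, sub_zero]
    have e3 : Real.pi * cos (Real.pi * s) = g s + s * N1 s := by
      rw [← e2, hN]
      ring
    unfold KerK ct
    rw [KQ, Polynomial.eval_X, e1, zero_add, pow_one, pow_one]
    have e4 : (Real.pi : ℂ) * (cos (Real.pi * s) / (s * g s)) = (g s + s * N1 s) / (s * g s) := by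
      rw [← e3]; ring
    rw [e4]
    field_simp
  | succ k ih =>
    obtain ⟨H, hHa, hH⟩ := ih
    have hk : ((k : ℂ) + 1) ≠ 0 := by exact_mod_cast Nat.succ_ne_zero k
    refine ⟨fun s => -(deriv H s) / ((k : ℂ) + 1), (hHa.deriv.fun_neg).fun_div
      analyticAt_const hk, ?_⟩
    have h1 : ∀ᶠ s in 𝓝[≠] (0 : ℂ), ∀ᶠ u in 𝓝 s, KerK k u = 1 / u ^ (k + 1) + H u := by
      have h2 := eventually_eventually_nhdsWithin.2 hH
      filter_upwards [h2, self_mem_nhdsWithin] with s hs hs0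
      have : 𝓝[≠] (0 : ℂ) = 𝓝[≠] 0 := rfl
      have hopen : IsOpen ({0}ᶜ : Set ℂ) := isOpen_compl_singleton
      rwa [hopen.nhdsWithin_eq hs0] at hs
    have h3 : ∀ᶠ s in 𝓝[≠] (0 : ℂ), AnalyticAt ℂ H s :=
      hHa.eventually_analyticAt.filter_mono nhdsWithin_le_nhds
    have h4 : ∀ᶠ s in 𝓝[≠] (0 : ℂ), ‖s‖ < 1 := by
      have : ∀ᶠ s in 𝓝 (0 : ℂ), ‖s‖ < 1 := by
        have := Metric.ball_mem_nhds (0 : ℂ) one_pos
        filter_upwards [this] with s hs
        simpa using hs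
      exact this.filter_mono nhdsWithin_le_nhds
    filter_upwards [h1, h3, h4, self_mem_nhdsWithin] with s hs1 hs3 hs4 hs0
    have hs0' : s ≠ 0 := hs0
    have hsin : sin (Real.pi * s) ≠ 0 := by
      apply sin_pi_ne_zero (k := 0)
      · have := Complex.abs_re_le_norm s
        simp only [Int.cast_zero, sub_zero]
        linarith
      · simpa using hs0'
    have h5 := hasDerivAt_KerK k hsin
    have h6 : HasDerivAt (fun u : ℂ => 1 / u ^ (k + 1) + H u)
        (-(((k + 1 : ℕ) : ℂ) * s ^ (k + 1 - 1) * 1) / (s ^ (k + 1)) ^ 2 + deriv H s) s := by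
      have h7 : HasDerivAt (fun u : ℂ => u ^ (k + 1)) (((k + 1 : ℕ) : ℂ) * s ^ (k + 1 - 1) * 1) s :=
        (hasDerivAt_id s).fun_pow (k + 1)
      have h8 := h7.fun_inv (pow_ne_zero _ hs0')
      have h9 : (fun u : ℂ => 1 / u ^ (k + 1) + H u) = fun u => (u ^ (k + 1))⁻¹ + H u := by
        funext u; rw [one_div]
      rw [h9]
      exact h8.add hs3.differentiableAt.hasDerivAt
    have h10 : HasDerivAt (KerK k)
        (-(((k + 1 : ℕ) : ℂ) * s ^ (k + 1 - 1) * 1) / (s ^ (k + 1)) ^ 2 + deriv H s) s :=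
      h6.congr_of_eventuallyEq hs1
    have h11 := h5.unique h10
    rw [Nat.add_sub_cancel] at h11
    push_cast at h11
    have h12 : (s ^ (k + 1)) ^ 2 = s ^ k * s ^ (k + 2) := by ring
    rw [h12] at h11
    have hsk : s ^ k ≠ 0 := pow_ne_zero _ hs0'
    have hsk2 : s ^ (k + 2) ≠ 0 := pow_ne_zero _ hs0'
    have h13 : -(((k : ℂ) + 1) * s ^ k * 1) / (s ^ k * s ^ (k + 2)) =
        -((k : ℂ) + 1) * (1 / s ^ (k + 2)) := by
      field_simp
    rw [h13] at h11
    have e : k + 1 + 1 = k + 2 := rfl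
    rw [e]
    field_simp
    field_simp at h11
    linear_combination (-1) * h11

end Pool.Agent.Zeta579
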