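import Mathlib

/-!
# The kernel `π³ cos(πt) / sin³(πt)`
-/

namespace Pool.Agent.Zeta579

open Filter Topology Set Complex

/-- the kernel -/
noncomputable def Ker (t : ℂ) : ℂ := Real.pi ^ 3 * cos (Real.pi * t) / sin (Real.pi * t) ^ 3

theorem Ker_add_one (t : ℂ) : Ker (t + 1) = Ker t := by
  unfold Ker
  rw [mul_add, mul_one, Complex.cos_add_pi, Complex.sin_add_pi]
  rw [show (-sin (Real.pi * t)) ^ 3 = -(sin (Real.pi * t) ^ 3) by ring, mul_neg, neg_div_neg_eq]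

theorem Ker_add_int (t : ℂ) (k : ℤ) : Ker (t + k) = Ker t := by
  induction k using Int.induction_on with
  | zero => simp
  | succ n ih =>
    have : t + ((n + 1 : ℤ) : ℂ) = (t + n) + 1 := by push_cast; ring
    rw [this, Ker_add_one]
    simpa using ih
  | pred n ih =>
    have : t + ((-(n : ℤ) : ℤ) : ℂ) = (t + ((-(n : ℤ) - 1 : ℤ) : ℂ)) + 1 := by push_cast; ring
    rw [this, Ker_add_one] at ih
    exact ih

/-- the kernel on the half-integer lines -/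
theorem Ker_half (k : ℤ) (y : ℝ) : Ker ((k : ℂ) + 1 / 2 + y * I) =
    -I * Real.pi ^ 3 * ((Real.sinh (Real.pi * y) / Real.cosh (Real.pi * y) ^ 3 : ℝ) : ℂ) := by
  have h0 : (k : ℂ) + 1 / 2 + y * I = (1 / 2 + y * I) + k := by ring
  rw [h0, Ker_add_int]
  unfold Ker
  have h1 : (Real.pi : ℂ) * (1 / 2 + y * I) = ((Real.pi * y : ℝ) : ℂ) * I + Real.pi / 2 := by
    push_cast; ring
  rw [h1, Complex.cos_add_pi_div_two, Complex.sin_add_pi_div_two, Complex.sin_mul_I,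
    Complex.cos_mul_I]
  push_cast
  ring

theorem norm_Ker_half (k : ℤ) (y : ℝ) :
    ‖Ker ((k : ℂ) + 1 / 2 + y * I)‖ ≤ Real.pi ^ 3 / Real.cosh (Real.pi * y) ^ 2 := by
  rw [Ker_half]
  have hc := Real.cosh_pos (Real.pi * y)
  rw [norm_mul, norm_mul, norm_neg, Complex.norm_I, one_mul, norm_pow, Complex.norm_real,
    Complex.norm_real, Real.norm_eq_abs, Real.norm_eq_abs, abs_of_pos Real.pi_pos, abs_div,
    abs_of_pos (pow_pos hc 3), div_eq_mul_inv (Real.pi ^ 3)]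
  apply mul_le_mul_of_nonneg_left _ (by positivity)
  rw [div_le_iff₀ (pow_pos hc 3)]
  have h1 : (Real.cosh (Real.pi * y) ^ 2)⁻¹ * Real.cosh (Real.pi * y) ^ 3 =
      Real.cosh (Real.pi * y) := by
    field_simp
  rw [h1, abs_le]
  constructor
  · have := Real.sinh_lt_cosh (-(Real.pi * y))
    rw [Real.sinh_neg, Real.cosh_neg] at this
    linarith
  · exact (Real.sinh_lt_cosh _).le

theorem inv_cosh_sq_le (x : ℝ) : 1 / Real.cosh x ^ 2 ≤ 4 * Real.exp (-(2 * |x|)) := by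
  have h1 : Real.exp |x| / 2 ≤ Real.cosh x := by
    rw [← Real.cosh_abs, Real.cosh_eq]
    have := Real.exp_pos (-|x|)
    linarith
  have h2 : 0 < Real.exp |x| / 2 := by positivity
  have h3 : (Real.exp |x| / 2) ^ 2 ≤ Real.cosh x ^ 2 := by
    apply pow_le_pow_left₀ h2.le h1
  rw [div_le_iff₀ (pow_pos (Real.cosh_pos x) 2)]
  have h4 : (4 * Real.exp (-(2 * |x|))) * (Real.exp |x| / 2) ^ 2 = 1 := by
    have : Real.exp (-(2 * |x|)) * (Real.exp |x| * Real.exp |x|) = 1 := by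
      rw [← Real.exp_add, ← Real.exp_add]
      ring_nf
      simp
    nlinarith
  calc (1 : ℝ) = (4 * Real.exp (-(2 * |x|))) * (Real.exp |x| / 2) ^ 2 := h4.symm
    _ ≤ _ := by gcongr

theorem norm_Ker_half' (k : ℤ) (y : ℝ) :
    ‖Ker ((k : ℂ) + 1 / 2 + y * I)‖ ≤ 4 * Real.pi ^ 3 * Real.exp (-(2 * Real.pi * |y|)) := by
  refine (norm_Ker_half k y).trans ?_
  have h := inv_cosh_sq_le (Real.pi * y)
  rw [abs_mul, abs_of_pos Real.pi_pos] at h
  calc Real.pi ^ 3 / Real.cosh (Real.pi * y) ^ 2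
      = Real.pi ^ 3 * (1 / Real.cosh (Real.pi * y) ^ 2) := by ring
    _ ≤ Real.pi ^ 3 * (4 * Real.exp (-(2 * (Real.pi * |y|)))) := by gcongr
    _ = _ := by ring_nf

/-! ### away from the real axis -/

theorem norm_sin_ge (z : ℂ) : |Real.sinh z.im| ≤ ‖sin z‖ := by
  have h1 : sin z = (exp (-z * I) - exp (z * I)) * I / 2 := rfl
  have h2 : ‖exp (-z * I)‖ = Real.exp z.im := by rw [Complex.norm_exp]; simp
  have h3 : ‖exp (z * I)‖ = Real.exp (-z.im) := by rw [Complex.norm_exp]; simp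
  rw [h1, norm_div, norm_mul, Complex.norm_I, mul_one]
  have h4 := abs_norm_sub_norm_le (exp (-z * I)) (exp (z * I))
  rw [h2, h3] at h4
  rw [Real.sinh_eq, abs_div]
  simp only [Complex.norm_ofNat, Nat.abs_ofNat]
  gcongr

theorem norm_cos_le (z : ℂ) : ‖cos z‖ ≤ Real.cosh z.im := by
  have h1 : cos z = (exp (z * I) + exp (-z * I)) / 2 := rfl
  have h2 : ‖exp (-z * I)‖ = Real.exp z.im := by rw [Complex.norm_exp]; simp
  have h3 : ‖exp (z * I)‖ = Real.exp (-z.im) := by rw [Complex.norm_exp]; simp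
  rw [h1, norm_div]
  have h4 := norm_add_le (exp (z * I)) (exp (-z * I))
  rw [h2, h3] at h4
  rw [Real.cosh_eq]
  simp only [Complex.norm_ofNat]
  gcongr
  linarith

theorem cosh_le_two_sinh {b : ℝ} (hb : 1 ≤ b) : Real.cosh b ≤ 2 * Real.sinh b := by
  rw [Real.cosh_eq, Real.sinh_eq]
  have h1 : Real.exp 1 ≤ Real.exp b := Real.exp_le_exp.2 hb
  have h2 : Real.exp (-b) ≤ Real.exp (-1) := Real.exp_le_exp.2 (by linarith)
  have h3 : Real.exp (-1) < 0.3678794412 := Real.exp_neg_one_lt_d9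
  have h4 : (2.7182818283 : ℝ) < Real.exp 1 := Real.exp_one_gt_d9
  linarith

theorem norm_Ker_le (t : ℂ) (ht : 1 ≤ |t.im|) :
    ‖Ker t‖ ≤ Real.pi ^ 3 * (2 / |t.im| ^ 2) := by
  have hpi := Real.pi_gt_three
  obtain ⟨b, hb⟩ : ∃ b, b = Real.pi * |t.im| := ⟨_, rfl⟩
  have hb1 : |t.im| ≤ b := by rw [hb]; nlinarith [abs_nonneg t.im]
  have hb0 : 1 ≤ b := ht.trans hb1
  have him : ((Real.pi : ℂ) * t).im = Real.pi * t.im := by simp
  have hbabs : |Real.pi * t.im| = b := by rw [abs_mul, abs_of_pos Real.pi_pos, hb]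
  have h1 : Real.sinh b ≤ ‖sin (Real.pi * t)‖ := by
    have := norm_sin_ge (Real.pi * t)
    rwa [him, Real.abs_sinh, hbabs] at this
  have h2 : ‖cos (Real.pi * t)‖ ≤ Real.cosh b := by
    have := norm_cos_le (Real.pi * t)
    rwa [him, ← Real.cosh_abs, hbabs] at this
  have h3 : b ≤ Real.sinh b := Real.self_le_sinh_iff.2 (by linarith)
  have h4 := cosh_le_two_sinh hb0
  have hs0 : 0 < Real.sinh b := by linarith
  unfold Ker
  rw [norm_div, norm_mul, norm_pow, norm_pow, Complex.norm_real, Real.norm_eq_abs,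
    abs_of_pos Real.pi_pos, mul_div_assoc]
  apply mul_le_mul_of_nonneg_left _ (by positivity)
  calc ‖cos (Real.pi * t)‖ / ‖sin (Real.pi * t)‖ ^ 3 ≤ (2 * Real.sinh b) / Real.sinh b ^ 3 := by
        gcongr
        exact h2.trans h4
    _ = 2 / Real.sinh b ^ 2 := by field_simp
    _ ≤ 2 / |t.im| ^ 2 := by
        have : |t.im| ≤ Real.sinh b := hb1.trans h3
        gcongr

/-! ### near the origin -/

theorem Ker_near_zero {s : ℂ} (hs : s ≠ 0) (hs' : ‖s‖ ≤ 1 / 8) :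
    ‖Ker s - 1 / s ^ 3‖ ≤ 1000 := by
  obtain ⟨z, hz⟩ : ∃ z : ℂ, z = Real.pi * s := ⟨_, rfl⟩
  obtain ⟨r, hr⟩ : ∃ r : ℝ, r = ‖z‖ := ⟨_, rfl⟩
  have hpi := Real.pi_gt_three
  have hpi' := Real.pi_lt_d2
  have hpc : (Real.pi : ℂ) ≠ 0 := by exact_mod_cast Real.pi_ne_zero
  have hz0 : z ≠ 0 := by rw [hz]; exact mul_ne_zero hpc hs
  have hr0 : 0 < r := by rw [hr]; exact norm_pos_iff.2 hz0
  have hr1 : r ≤ 2 / 5 := by
    rw [hr, hz, norm_mul, Complex.norm_real, Real.norm_eq_abs, abs_of_pos Real.pi_pos]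
    nlinarith [norm_nonneg s]
  have hz1 : ‖z‖ ≤ 1 := by rw [← hr]; linarith
  have hsin := Complex.sin_bound hz1
  have hcos := Complex.cos_bound hz1
  obtain ⟨a, ha⟩ : ∃ a : ℂ, a = sin z - (z - z ^ 3 / 6) := ⟨_, rfl⟩
  obtain ⟨b, hb⟩ : ∃ b : ℂ, b = cos z - (1 - z ^ 2 / 2) := ⟨_, rfl⟩
  rw [← ha, ← hr] at hsin
  rw [← hb, ← hr] at hcos
  obtain ⟨w, hw⟩ : ∃ w : ℂ, w = -(z ^ 3 / 6) + a := ⟨_, rfl⟩
  have hsz : sin z = z + w := by rw [hw, ha]; ring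
  have hcz : cos z = 1 - z ^ 2 / 2 + b := by rw [hb]; ring
  have hwn : ‖w‖ ≤ r ^ 3 / 5 := by
    have h1 : ‖w‖ ≤ ‖z ^ 3 / 6‖ + ‖a‖ := by
      rw [hw]
      refine (norm_add_le _ _).trans ?_
      rw [norm_neg]
    have h2 : ‖z ^ 3 / 6‖ = r ^ 3 / 6 := by
      rw [norm_div, norm_pow, ← hr]; simp
    rw [h2] at h1
    have h3 : r ^ 5 ≤ r ^ 3 := pow_le_pow_of_le_one hr0.le (by linarith) (by norm_num)
    have h4 : 0 < r ^ 3 := by positivity
    linarith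
  have hsin_ge : r / 2 ≤ ‖sin z‖ := by
    have h1 : ‖z‖ ≤ ‖sin z‖ + ‖w‖ := by
      have : z = sin z - w := by rw [hsz]; ring
      calc ‖z‖ = ‖sin z - w‖ := by rw [← this]
        _ ≤ _ := norm_sub_le _ _
    rw [← hr] at h1
    have h3 : r ^ 3 ≤ r := by
      calc r ^ 3 ≤ r ^ 1 := pow_le_pow_of_le_one hr0.le (by linarith) (by norm_num)
        _ = r := pow_one r
    linarith
  have hsin0 : sin z ≠ 0 := by
    intro h
    rw [h, norm_zero] at hsin_ge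
    linarith
  have hnum : ‖z ^ 3 * cos z - sin z ^ 3‖ ≤ r ^ 6 := by
    have h1 : z ^ 3 * cos z - sin z ^ 3 = z ^ 3 * b - 3 * z ^ 2 * a - 3 * z * w ^ 2 - w ^ 3 := by
      rw [hsz, hcz]
      have : w = -(z ^ 3 / 6) + a := hw
      rw [this]
      ring
    rw [h1]
    have n1 : ‖z ^ 3 * b‖ ≤ r ^ 3 * (r ^ 4 * (5 / 96)) := by
      rw [norm_mul, norm_pow, ← hr]; gcongr
    have n2 : ‖3 * z ^ 2 * a‖ ≤ 3 * r ^ 2 * (r ^ 5 / 100) := by
      rw [norm_mul, norm_mul, norm_pow, ← hr]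
      simp only [Complex.norm_ofNat]
      gcongr
    have n3 : ‖3 * z * w ^ 2‖ ≤ 3 * r * (r ^ 3 / 5) ^ 2 := by
      rw [norm_mul, norm_mul, norm_pow, ← hr]
      simp only [Complex.norm_ofNat]
      gcongr
    have n4 : ‖w ^ 3‖ ≤ (r ^ 3 / 5) ^ 3 := by
      rw [norm_pow]; gcongr
    have n5 : ‖z ^ 3 * b - 3 * z ^ 2 * a - 3 * z * w ^ 2 - w ^ 3‖ ≤
        ‖z ^ 3 * b‖ + ‖3 * z ^ 2 * a‖ + ‖3 * z * w ^ 2‖ + ‖w ^ 3‖ := by
      refine (norm_sub_le _ _).trans (add_le_add_left ?_ _)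
      refine (norm_sub_le _ _).trans (add_le_add_left ?_ _)
      exact norm_sub_le _ _
    have p7 : r ^ 7 ≤ r ^ 6 * (2 / 5) := by
      have : r ^ 7 = r ^ 6 * r := by ring
      rw [this]; gcongr
    have p9 : r ^ 9 ≤ r ^ 6 := pow_le_pow_of_le_one hr0.le (by linarith) (by norm_num)
    have p6 : 0 < r ^ 6 := by positivity
    have e1 : r ^ 3 * (r ^ 4 * (5 / 96)) = 5 / 96 * r ^ 7 := by ring
    have e2 : 3 * r ^ 2 * (r ^ 5 / 100) = 3 / 100 * r ^ 7 := by ring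
    have e3 : 3 * r * (r ^ 3 / 5) ^ 2 = 3 / 25 * r ^ 7 := by ring
    have e4 : (r ^ 3 / 5) ^ 3 = 1 / 125 * r ^ 9 := by ring
    linarith
  have hmain : Ker s - 1 / s ^ 3 =
      Real.pi ^ 3 * (z ^ 3 * cos z - sin z ^ 3) / (z ^ 3 * sin z ^ 3) := by
    have hs3 : s = z / Real.pi := by rw [hz]; field_simp
    unfold Ker
    rw [← hz]
    rw [hs3]
    field_simp
  rw [hmain, norm_div, norm_mul, norm_mul, norm_pow, norm_pow, norm_pow, ← hr, Complex.norm_real,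
    Real.norm_eq_abs, abs_of_pos Real.pi_pos]
  have hden : r ^ 3 * (r / 2) ^ 3 ≤ r ^ 3 * ‖sin z‖ ^ 3 := by gcongr
  have hpi3 : Real.pi ^ 3 ≤ 3.15 ^ 3 := by gcongr
  calc Real.pi ^ 3 * ‖z ^ 3 * cos z - sin z ^ 3‖ / (r ^ 3 * ‖sin z‖ ^ 3)
      ≤ (3.15 ^ 3 * r ^ 6) / (r ^ 3 * (r / 2) ^ 3) := by gcongr
    _ = 3.15 ^ 3 * 8 := by field_simp; ring
    _ ≤ 1000 := by norm_num

theorem differentiableAt_Ker {t : ℂ} (ht : sin (Real.pi * t) ≠ 0) : DifferentiableAt ℂ Ker t := by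
  unfold Ker
  have : sin (Real.pi * t) ^ 3 ≠ 0 := pow_ne_zero 3 ht
  fun_prop (disch := assumption)

/-- zeros of the sine -/
theorem sin_pi_ne_zero {t : ℂ} {k : ℤ} (h1 : |t.re - k| < 1) (h2 : t ≠ k) :
    sin (Real.pi * t) ≠ 0 := by
  rw [Complex.sin_ne_zero_iff]
  intro m hm
  have hpc : (Real.pi : ℂ) ≠ 0 := by exact_mod_cast Real.pi_ne_zero
  have h3 : t = m := by
    rw [mul_comm] at hm
    exact mul_right_cancel₀ hpc hm
  rw [h3] at h1 h2
  have h4 : ((m : ℂ)).re = m := by simp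
  rw [h4] at h1
  have h5 : |((m - k : ℤ) : ℝ)| < 1 := by push_cast; exact h1
  have h6 : m - k = 0 := by
    rw [← Int.cast_abs] at h5
    exact Int.abs_lt_one_iff.1 (by exact_mod_cast h5)
  apply h2
  have : m = k := by omega
  rw [this]

end Pool.Agent.Zeta579
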