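import Pool.Agent.Zeta579.Kernel

/-!
# Moving the line of integration across one integer
-/

namespace Pool.Agent.Zeta579

open Filter Topology Set Complex MeasureTheory

/-- the integral over a half-integer line -/
noncomputable def IR (R : ℂ → ℂ) (k : ℤ) : ℂ :=
  ∫ y : ℝ, R ((k : ℂ) + 1 / 2 + y * I) * Ker ((k : ℂ) + 1 / 2 + y * I)

theorem integrable_exp_abs {c : ℝ} (hc : 0 < c) : Integrable (fun y : ℝ => Real.exp (-(c * |y|))) := by
  have h1 : IntegrableOn (fun y : ℝ => Real.exp (-(c * |y|))) (Ioi 0) := by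
    refine (exp_neg_integrableOn_Ioi 0 hc).congr_fun ?_ measurableSet_Ioi
    intro y hy
    simp only [abs_of_pos (show (0 : ℝ) < y from hy)]
    ring_nf
  have h2 : IntegrableOn (fun y : ℝ => Real.exp (-(c * |y|))) (Iic 0) := by
    have h3 := (integrableOn_Ici_iff_integrableOn_Ioi (μ := volume)).2 h1
    rw [← neg_zero] at h3
    have h4 := h3.comp_neg_Iic
    simpa using h4
  have h3 := h2.union h1
  rwa [Iic_union_Ioi, integrableOn_univ] at h3

theorem Ker_line_aesm (k : ℤ) : Continuous (fun y : ℝ => Ker ((k : ℂ) + 1 / 2 + y * I)) := by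
  rw [continuous_iff_continuousAt]
  intro y
  have h1 : sin (Real.pi * ((k : ℂ) + 1 / 2 + y * I)) ≠ 0 := by
    apply sin_pi_ne_zero (k := k)
    · simp
      norm_num
    · intro h
      have := congrArg Complex.re h
      simp at this
  have h2 := (differentiableAt_Ker h1).continuousAt
  have h3 : ContinuousAt (fun y : ℝ => (k : ℂ) + 1 / 2 + y * I) y := by fun_prop
  exact ContinuousAt.comp (g := Ker) h2 h3

theorem integrable_line {R : ℂ → ℂ} {k : ℤ} {M : ℝ}
    (hc : Continuous fun y : ℝ => R ((k : ℂ) + 1 / 2 + y * I))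
    (hM : ∀ y : ℝ, ‖R ((k : ℂ) + 1 / 2 + y * I)‖ ≤ M) :
    Integrable fun y : ℝ => R ((k : ℂ) + 1 / 2 + y * I) * Ker ((k : ℂ) + 1 / 2 + y * I) := by
  have h1 : Integrable (fun y : ℝ => M * (4 * Real.pi ^ 3 * Real.exp (-(2 * Real.pi * |y|)))) :=
    ((integrable_exp_abs (by positivity)).const_mul _).const_mul _
  refine h1.mono' (hc.mul (Ker_line_aesm k)).aestronglyMeasurable ?_
  filter_upwards with y
  rw [norm_mul]
  have hM0 : 0 ≤ M := (norm_nonneg _).trans (hM y)
  have := norm_Ker_half' k y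
  have := hM y
  gcongr

theorem norm_IR_le {R : ℂ → ℂ} {k : ℤ} {M : ℝ}
    (hM : ∀ y : ℝ, ‖R ((k : ℂ) + 1 / 2 + y * I)‖ ≤ M) :
    ‖IR R k‖ ≤ M * ∫ y : ℝ, 4 * Real.pi ^ 3 * Real.exp (-(2 * Real.pi * |y|)) := by
  have h1 : Integrable (fun y : ℝ => M * (4 * Real.pi ^ 3 * Real.exp (-(2 * Real.pi * |y|)))) :=
    ((integrable_exp_abs (by positivity)).const_mul _).const_mul _
  rw [← integral_const_mul]
  refine norm_integral_le_of_norm_le h1 ?_
  filter_upwards with y
  rw [norm_mul]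
  have hM0 : 0 ≤ M := (norm_nonneg _).trans (hM y)
  have := norm_Ker_half' k y
  have := hM y
  gcongr

/-! ### the principal part -/

theorem ne_zero_of_re {c : ℝ} (hc : c ≠ 0) (y : ℝ) : (c : ℂ) + y * I ≠ 0 := by
  intro h
  have := congrArg Complex.re h
  simp at this
  exact hc this

theorem hasDerivAt_line (c y : ℝ) : HasDerivAt (fun y : ℝ => (c : ℂ) + y * I) I y := by
  have h1 : HasDerivAt (fun y : ℝ => (y : ℂ) * I) (1 * I) y :=
    (HasDerivAt.ofReal_comp (hasDerivAt_id y)).mul_const I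
  simpa using h1.const_add (c : ℂ)

theorem continuous_inv_pow {c : ℝ} (hc : c ≠ 0) (n : ℕ) :
    Continuous (fun y : ℝ => 1 / ((c : ℂ) + y * I) ^ n) := by
  have h : ∀ y : ℝ, ((c : ℂ) + y * I) ^ n ≠ 0 := fun y => pow_ne_zero n (ne_zero_of_re hc y)
  fun_prop (disch := assumption)

theorem integral_inv_sq {c : ℝ} (hc : c ≠ 0) (T : ℝ) :
    ∫ y in (-T)..T, 1 / ((c : ℂ) + y * I) ^ 2 =
      I * (1 / ((c : ℂ) + T * I)) - I * (1 / ((c : ℂ) + (-T : ℝ) * I)) := by
  rw [intervalIntegral.integral_eq_sub_of_hasDerivAt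
    (f := fun y : ℝ => I * (1 / ((c : ℂ) + y * I)))]
  · intro y _
    have h0 := ne_zero_of_re hc y
    have h2 := ((hasDerivAt_line c y).inv h0).const_mul I
    have h3 : I * (-I / ((c : ℂ) + y * I) ^ 2) = 1 / ((c : ℂ) + y * I) ^ 2 := by
      have h4 : I * (-I / ((c : ℂ) + y * I) ^ 2) = -(I * I) / ((c : ℂ) + y * I) ^ 2 := by ring
      rw [h4, Complex.I_mul_I, neg_neg]
    rw [h3] at h2
    simpa [one_div] using h2
  · exact (continuous_inv_pow hc _).intervalIntegrable _ _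

theorem integral_inv_cube {c : ℝ} (hc : c ≠ 0) (T : ℝ) :
    ∫ y in (-T)..T, 1 / ((c : ℂ) + y * I) ^ 3 =
      I / 2 * (1 / ((c : ℂ) + T * I) ^ 2) - I / 2 * (1 / ((c : ℂ) + (-T : ℝ) * I) ^ 2) := by
  rw [intervalIntegral.integral_eq_sub_of_hasDerivAt
    (f := fun y : ℝ => I / 2 * (1 / ((c : ℂ) + y * I) ^ 2))]
  · intro y _
    have h0 := ne_zero_of_re hc y
    have h1 := (hasDerivAt_line c y).pow 2
    have h2 := (h1.inv (pow_ne_zero 2 h0)).const_mul (I / 2)
    have h3 : I / 2 * (-(((2 : ℕ) : ℂ) * ((c : ℂ) + y * I) ^ (2 - 1) * I) /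
        (((c : ℂ) + y * I) ^ 2) ^ 2) = 1 / ((c : ℂ) + y * I) ^ 3 := by
      generalize (c : ℂ) + y * I = w at h0
      have h4 : I / 2 * (-(((2 : ℕ) : ℂ) * w ^ (2 - 1) * I) / (w ^ 2) ^ 2) =
          -(I * I) * (w / (w ^ 2) ^ 2) := by push_cast; ring
      rw [h4, Complex.I_mul_I, neg_neg, one_mul]
      field_simp
    have h5 : HasDerivAt (fun y : ℝ => I / 2 * (1 / ((c : ℂ) + y * I) ^ 2))
        (I / 2 * (-(((2 : ℕ) : ℂ) * ((c : ℂ) + y * I) ^ (2 - 1) * I) /
        (((c : ℂ) + y * I) ^ 2) ^ 2)) y := by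
      simpa [one_div] using h2
    rw [h3] at h5
    exact h5
  · exact (continuous_inv_pow hc _).intervalIntegrable _ _

theorem norm_line_ge (c y : ℝ) : |y| ≤ ‖(c : ℂ) + y * I‖ := by
  have := Complex.abs_im_le_norm ((c : ℂ) + y * I)
  simpa using this

theorem tendsto_inv_pow (c : ℝ) {n : ℕ} (hn : n ≠ 0) {l : Filter ℝ} {f : ℝ → ℝ}
    (hf : Tendsto (fun T => |f T|) l atTop) :
    Tendsto (fun T : ℝ => 1 / ((c : ℂ) + (f T : ℝ) * I) ^ n) l (𝓝 0) := by
  rw [tendsto_zero_iff_norm_tendsto_zero]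
  have h1 : Tendsto (fun T : ℝ => (|f T| ^ n)⁻¹) l (𝓝 0) :=
    tendsto_inv_atTop_zero.comp ((tendsto_pow_atTop hn).comp hf)
  refine squeeze_zero' (Eventually.of_forall fun T => norm_nonneg _) ?_ h1
  filter_upwards [hf.eventually_gt_atTop 0] with T hT
  rw [norm_div, norm_one, norm_pow, one_div]
  have := norm_line_ge c (f T)
  gcongr

theorem tendsto_abs_id : Tendsto (fun T : ℝ => |T|) atTop atTop := tendsto_abs_atTop_atTop

theorem tendsto_abs_neg : Tendsto (fun T : ℝ => |(-T)|) atTop atTop := by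
  simp only [abs_neg]
  exact tendsto_abs_atTop_atTop

theorem tendsto_A2 {c : ℝ} (hc : c ≠ 0) :
    Tendsto (fun T : ℝ => ∫ y in (-T)..T, 1 / ((c : ℂ) + y * I) ^ 2) atTop (𝓝 0) := by
  simp_rw [integral_inv_sq hc]
  have h1 := tendsto_inv_pow c one_ne_zero tendsto_abs_id
  have h2 := tendsto_inv_pow c one_ne_zero tendsto_abs_neg
  simp only [pow_one] at h1 h2
  simpa using (h1.const_mul I).sub (h2.const_mul I)

theorem tendsto_A3 {c : ℝ} (hc : c ≠ 0) :
    Tendsto (fun T : ℝ => ∫ y in (-T)..T, 1 / ((c : ℂ) + y * I) ^ 3) atTop (𝓝 0) := by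
  simp_rw [integral_inv_cube hc]
  have h1 := tendsto_inv_pow c two_ne_zero tendsto_abs_id
  have h2 := tendsto_inv_pow c two_ne_zero tendsto_abs_neg
  simpa using (h1.const_mul (I / 2)).sub (h2.const_mul (I / 2))

theorem tendsto_A1 : Tendsto (fun T : ℝ =>
    (∫ y in (-T)..T, 1 / (((1 / 2 : ℝ) : ℂ) + y * I) ^ 1) -
      ∫ y in (-T)..T, 1 / (((-(1 / 2) : ℝ) : ℂ) + y * I) ^ 1) atTop
      (𝓝 ((2 * Real.pi : ℝ) : ℂ)) := by
  have h1 : ∀ T : ℝ, (∫ y in (-T)..T, 1 / (((1 / 2 : ℝ) : ℂ) + y * I) ^ 1) -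
      ∫ y in (-T)..T, 1 / (((-(1 / 2) : ℝ) : ℂ) + y * I) ^ 1 =
        ((2 * (Real.arctan (2 * T) - Real.arctan (2 * (-T))) : ℝ) : ℂ) := by
    intro T
    rw [← intervalIntegral.integral_sub
      ((continuous_inv_pow (by norm_num) _).intervalIntegrable _ _)
      ((continuous_inv_pow (by norm_num) _).intervalIntegrable _ _)]
    have e : ∀ y : ℝ, 1 / (((1 / 2 : ℝ) : ℂ) + y * I) ^ 1 - 1 / (((-(1 / 2) : ℝ) : ℂ) + y * I) ^ 1 =
        ((4 * (1 + (2 * y) ^ 2)⁻¹ : ℝ) : ℂ) := by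
      intro y
      have a1 := ne_zero_of_re (show (1 / 2 : ℝ) ≠ 0 by norm_num) y
      have a2 := ne_zero_of_re (show (-(1 / 2) : ℝ) ≠ 0 by norm_num) y
      have a3 : (1 + (2 * (y : ℂ)) ^ 2) ≠ 0 := by
        have : (1 + (2 * y) ^ 2 : ℝ) ≠ 0 := by positivity
        exact_mod_cast this
      have h4 : I ^ 2 = -1 := Complex.I_sq
      rw [pow_one, pow_one, div_sub_div _ _ a1 a2]
      have a4 : (((1 / 2 : ℝ) : ℂ) + y * I) * (((-(1 / 2) : ℝ) : ℂ) + y * I) =
          -((1 + (2 * (y : ℂ)) ^ 2) / 4) := by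
        push_cast
        linear_combination ((y : ℂ) ^ 2) * h4
      rw [a4]
      push_cast
      field_simp
      ring
    simp_rw [e]
    rw [intervalIntegral.integral_ofReal]
    congr 1
    rw [intervalIntegral.integral_const_mul]
    have := intervalIntegral.integral_comp_mul_left (a := -T) (b := T)
      (fun x : ℝ => (1 + x ^ 2)⁻¹) (c := 2) two_ne_zero
    rw [this, integral_inv_one_add_sq, smul_eq_mul]
    ring
  simp_rw [h1]
  have h2 : Tendsto (fun T : ℝ => 2 * (Real.arctan (2 * T) - Real.arctan (2 * (-T)))) atTop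
      (𝓝 (2 * (Real.pi / 2 - -(Real.pi / 2)))) := by
    refine Tendsto.const_mul 2 (Tendsto.sub ?_ ?_)
    · exact (Real.tendsto_arctan_atTop.mono_right nhdsWithin_le_nhds).comp
        (tendsto_id.const_mul_atTop two_pos)
    · refine (Real.tendsto_arctan_atBot.mono_right nhdsWithin_le_nhds).comp ?_
      exact (tendsto_neg_atTop_atBot).const_mul_atBot two_pos
  have h3 := (Complex.continuous_ofReal.tendsto _).comp h2
  have h4 : 2 * (Real.pi / 2 - -(Real.pi / 2)) = 2 * Real.pi := by ring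
  rw [h4] at h3
  exact h3

/-! ### the residue -/

/-- the second Taylor coefficient through iterated slopes -/
theorem dslope_two {R : ℂ → ℂ} {U : Set ℂ} (hU : IsOpen U) (hR : DifferentiableOn ℂ R U) {k : ℂ}
    (hk : k ∈ U) : dslope (dslope R k) k k = iteratedDeriv 2 R k / 2 := by
  have hn : U ∈ 𝓝 k := hU.mem_nhds hk
  have h1 : DifferentiableOn ℂ (dslope R k) U := (differentiableOn_dslope hn).2 hR
  have h1' : DifferentiableOn ℂ (deriv (dslope R k)) U := h1.deriv hU
  rw [dslope_same]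
  have e : deriv R =ᶠ[𝓝 k] fun t => dslope R k t + (t - k) * deriv (dslope R k) t := by
    filter_upwards [hn] with t ht
    have e1 : R =ᶠ[𝓝 t] fun t => R k + (t - k) * dslope R k t := by
      filter_upwards with u
      have := sub_smul_dslope R k u
      rw [smul_eq_mul] at this
      rw [this]; ring
    rw [e1.deriv_eq]
    have h2 : HasDerivAt (dslope R k) (deriv (dslope R k) t) t :=
      (h1.differentiableAt (hU.mem_nhds ht)).hasDerivAt
    have h3 : HasDerivAt (fun t => R k + (t - k) * dslope R k t)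
        (1 * dslope R k t + (t - k) * deriv (dslope R k) t) t :=
      (((hasDerivAt_id t).sub_const k).mul h2).const_add (R k)
    rw [h3.deriv]; ring
  rw [iteratedDeriv_succ, iteratedDeriv_one, e.deriv_eq]
  have h2 : HasDerivAt (dslope R k) (deriv (dslope R k) k) k :=
    (h1.differentiableAt hn).hasDerivAt
  have h3 : HasDerivAt (deriv (dslope R k)) (deriv (deriv (dslope R k)) k) k :=
    (h1'.differentiableAt hn).hasDerivAt
  have h4 : HasDerivAt (fun t => dslope R k t + (t - k) * deriv (dslope R k) t)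
      (deriv (dslope R k) k + (1 * deriv (dslope R k) k +
        (k - k) * deriv (deriv (dslope R k)) k)) k :=
    h2.add (((hasDerivAt_id k).sub_const k).mul h3)
  rw [h4.deriv]; ring

/-- **Moving the line across one integer.** -/
theorem strip {R : ℂ → ℂ} {a M : ℝ} {k : ℤ} (ha : a < k - 1 / 2)
    (hR : DifferentiableOn ℂ R {t | a < t.re})
    (hM : ∀ t : ℂ, (k : ℝ) - 1 / 2 ≤ t.re → t.re ≤ k + 1 / 2 → ‖R t‖ ≤ M) :
    IR R k - IR R (k - 1) = Real.pi * iteratedDeriv 2 R k := by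
  have hUo : IsOpen {t : ℂ | a < t.re} := isOpen_lt continuous_const Complex.continuous_re
  have hkU : (k : ℂ) ∈ {t : ℂ | a < t.re} := by
    show a < ((k : ℂ)).re
    rw [intCast_re]; linarith
  have hkn := hUo.mem_nhds hkU
  obtain ⟨R1, hR1⟩ : ∃ R1, R1 = dslope R k := ⟨_, rfl⟩
  obtain ⟨R2, hR2⟩ : ∃ R2, R2 = dslope R1 k := ⟨_, rfl⟩
  obtain ⟨R3, hR3⟩ : ∃ R3, R3 = dslope R2 k := ⟨_, rfl⟩
  have d1 : DifferentiableOn ℂ R1 {t | a < t.re} := by
    rw [hR1]; exact (differentiableOn_dslope hkn).2 hR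
  have d2 : DifferentiableOn ℂ R2 {t | a < t.re} := by
    rw [hR2]; exact (differentiableOn_dslope hkn).2 d1
  have d3 : DifferentiableOn ℂ R3 {t | a < t.re} := by
    rw [hR3]; exact (differentiableOn_dslope hkn).2 d2
  have f1 : ∀ t, R t = R k + (t - k) * R1 t := by
    intro t
    have := sub_smul_dslope R k t
    rw [smul_eq_mul, ← hR1] at this
    rw [this]; ring
  have f2 : ∀ t, R1 t = R1 k + (t - k) * R2 t := by
    intro t
    have := sub_smul_dslope R1 k t
    rw [smul_eq_mul, ← hR2] at this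
    rw [this]; ring
  have f3 : ∀ t, R2 t = R2 k + (t - k) * R3 t := by
    intro t
    have := sub_smul_dslope R2 k t
    rw [smul_eq_mul, ← hR3] at this
    rw [this]; ring
  have hR2k : R2 k = iteratedDeriv 2 R k / 2 := by
    rw [hR2, hR1]; exact dslope_two hUo hR hkU
  -- principal part and the regular part
  obtain ⟨P, hP⟩ : ∃ P : ℂ → ℂ, P = fun t => R k * (1 / (t - k) ^ 3) + R1 k * (1 / (t - k) ^ 2) +
    R2 k * (1 / (t - k) ^ 1) := ⟨_, rfl⟩
  obtain ⟨h, hh⟩ : ∃ h : ℂ → ℂ, h = fun t => R t * Ker t - P t := ⟨_, rfl⟩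
  have hh2 : ∀ t : ℂ, t ≠ k → h t = R t * (Ker t - 1 / (t - k) ^ 3) + R3 t := by
    intro t ht
    have h0 : t - k ≠ 0 := sub_ne_zero.2 ht
    have e : R t = R k + (t - k) * (R1 k + (t - k) * (R2 k + (t - k) * R3 t)) := by
      rw [← f3 t, ← f2 t, ← f1 t]
    have e2 : R t * (1 / (t - k) ^ 3) = P t + R3 t := by
      rw [hP]
      simp only
      rw [e]
      field_simp
      ring
    rw [hh]
    simp only
    rw [mul_sub, e2]
    ring
  have hdiff : ∀ t : ℂ, a < t.re → |t.re - k| < 1 → t ≠ k → DifferentiableAt ℂ h t := by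
    intro t h1 h2 h3
    have h0 : t - k ≠ 0 := sub_ne_zero.2 h3
    have k1 := hR.differentiableAt (hUo.mem_nhds h1)
    have k2 := differentiableAt_Ker (sin_pi_ne_zero h2 h3)
    rw [hh, hP]
    have q1 : (t - k) ^ 1 ≠ 0 := pow_ne_zero _ h0
    have q2 : (t - k) ^ 2 ≠ 0 := pow_ne_zero _ h0
    have q3 : (t - k) ^ 3 ≠ 0 := pow_ne_zero _ h0
    fun_prop (disch := assumption)
  -- removable singularity
  have hbdd : ∃ B : ℝ, ∀ᶠ t in 𝓝 (k : ℂ), ‖R t‖ ≤ B ∧ ‖R3 t‖ ≤ B := by
    have c1 : ContinuousAt (fun t => ‖R t‖) (k : ℂ) :=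
      (hR.differentiableAt hkn).continuousAt.norm
    have c2 : ContinuousAt (fun t => ‖R3 t‖) (k : ℂ) :=
      (d3.differentiableAt hkn).continuousAt.norm
    refine ⟨max (‖R k‖ + 1) (‖R3 k‖ + 1), ?_⟩
    have e1 := c1.eventually (gt_mem_nhds (show ‖R k‖ < ‖R k‖ + 1 by linarith))
    have e2 := c2.eventually (gt_mem_nhds (show ‖R3 k‖ < ‖R3 k‖ + 1 by linarith))
    filter_upwards [e1, e2] with t h1 h2
    exact ⟨h1.le.trans (le_max_left _ _), h2.le.trans (le_max_right _ _)⟩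
  obtain ⟨B, hB⟩ := hbdd
  have hnear : ∀ᶠ t in 𝓝 (k : ℂ), (‖R t‖ ≤ B ∧ ‖R3 t‖ ≤ B) ∧ a < t.re ∧ |t.re - k| < 1 ∧
      ‖t - k‖ ≤ 1 / 8 := by
    refine hB.and (Filter.Eventually.and (hUo.mem_nhds hkU) (Filter.Eventually.and ?_ ?_))
    · have c : ContinuousAt (fun t : ℂ => |t.re - k|) (k : ℂ) := by fun_prop
      exact c.eventually (gt_mem_nhds (by simp))
    · have c : ContinuousAt (fun t : ℂ => ‖t - k‖) (k : ℂ) := by fun_prop
      filter_upwards [c.eventually (gt_mem_nhds (show ‖(k : ℂ) - k‖ < 1 / 8 by simp))] with t ht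
      exact ht.le
  obtain ⟨s, hs, hs2⟩ := Filter.eventually_iff_exists_mem.1 hnear
  obtain ⟨g, hg⟩ : ∃ g, g = Function.update h k (limUnder (𝓝[≠] (k : ℂ)) h) := ⟨_, rfl⟩
  have hgd : DifferentiableOn ℂ g s := by
    rw [hg]
    apply differentiableOn_update_limUnder_of_bddAbove hs
    · intro t ht
      have := hs2 t ht.1
      exact (hdiff t this.2.1 this.2.2.1 ht.2).differentiableWithinAt
    · refine ⟨B * 1000 + B, ?_⟩
      rintro x ⟨t, ht, rfl⟩
      have h1 := hs2 t ht.1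
      have h2 : t ≠ k := ht.2
      simp only [Function.comp]
      rw [hh2 t h2]
      have h3 : t - k ≠ 0 := sub_ne_zero.2 h2
      have h4 : ‖Ker t - 1 / (t - k) ^ 3‖ ≤ 1000 := by
        have := Ker_near_zero h3 h1.2.2.2
        have e : Ker (t - k) = Ker t := by
          have := Ker_add_int (t - k) k
          rw [sub_add_cancel] at this
          exact this.symm
        rwa [e] at this
      have hB0 : 0 ≤ B := (norm_nonneg _).trans h1.1.1
      calc ‖R t * (Ker t - 1 / (t - k) ^ 3) + R3 t‖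
          ≤ ‖R t‖ * ‖Ker t - 1 / (t - k) ^ 3‖ + ‖R3 t‖ := by
            rw [← norm_mul]; exact norm_add_le _ _
        _ ≤ B * 1000 + B := by
            have a1 := h1.1.1
            have a2 := h1.1.2
            gcongr
  have hgdiff : ∀ t : ℂ, a < t.re → |t.re - k| < 1 → DifferentiableAt ℂ g t := by
    intro t h1 h2
    by_cases h3 : t = k
    · rw [h3]
      exact hgd.differentiableAt hs
    · refine (hdiff t h1 h2 h3).congr_of_eventuallyEq ?_
      filter_upwards [isOpen_ne.mem_nhds h3] with u hu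
      rw [hg, Function.update_of_ne hu]
  have hgh : ∀ t : ℂ, t ≠ k → g t = h t := by
    intro t ht
    rw [hg, Function.update_of_ne ht]
  -- the rectangle
  have hrect : ∀ T : ℝ, 0 < T →
      (∫ x : ℝ in (k - 1 / 2 : ℝ)..(k + 1 / 2 : ℝ), h (x + (-T : ℝ) * I)) -
      (∫ x : ℝ in (k - 1 / 2 : ℝ)..(k + 1 / 2 : ℝ), h (x + (T : ℝ) * I)) +
      I * (∫ y : ℝ in (-T)..T, h ((k + 1 / 2 : ℝ) + y * I)) -
      I * (∫ y : ℝ in (-T)..T, h ((k - 1 / 2 : ℝ) + y * I)) = 0 := by
    intro T hT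
    have hz := integral_boundary_rect_eq_zero_of_differentiableOn g
      (⟨k - 1 / 2, -T⟩ : ℂ) (⟨k + 1 / 2, T⟩ : ℂ) (by
        intro t ht
        rw [mem_reProdIm] at ht
        simp only at ht
        rw [uIcc_of_le (by linarith)] at ht
        refine (hgdiff t ?_ ?_).differentiableWithinAt
        · have := ht.1.1; linarith
        · have h1 := ht.1.1
          have h2 := ht.1.2
          rw [abs_lt]; constructor <;> linarith)
    simp only [smul_eq_mul] at hz
    have hk' : ∀ x y : ℝ, y ≠ 0 → (x : ℂ) + y * I ≠ k := by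
      intro x y hy he
      have := congrArg Complex.im he
      simp at this
      exact hy this
    have hk'' : ∀ x y : ℝ, x ≠ k → (x : ℂ) + y * I ≠ k := by
      intro x y hy he
      have := congrArg Complex.re he
      simp at this
      exact hy this
    have e1 : (∫ x : ℝ in (k - 1 / 2 : ℝ)..(k + 1 / 2 : ℝ), g (x + (-T : ℝ) * I)) =
        ∫ x : ℝ in (k - 1 / 2 : ℝ)..(k + 1 / 2 : ℝ), h (x + (-T : ℝ) * I) := by
      apply intervalIntegral.integral_congr
      intro x _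
      exact hgh _ (hk' x (-T) (by linarith))
    have e2 : (∫ x : ℝ in (k - 1 / 2 : ℝ)..(k + 1 / 2 : ℝ), g (x + (T : ℝ) * I)) =
        ∫ x : ℝ in (k - 1 / 2 : ℝ)..(k + 1 / 2 : ℝ), h (x + (T : ℝ) * I) := by
      apply intervalIntegral.integral_congr
      intro x _
      exact hgh _ (hk' x T (by linarith))
    have e3 : (∫ y : ℝ in (-T)..T, g ((k + 1 / 2 : ℝ) + y * I)) =
        ∫ y : ℝ in (-T)..T, h ((k + 1 / 2 : ℝ) + y * I) := by
      apply intervalIntegral.integral_congr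
      intro y _
      exact hgh _ (hk'' _ y (by linarith))
    have e4 : (∫ y : ℝ in (-T)..T, g ((k - 1 / 2 : ℝ) + y * I)) =
        ∫ y : ℝ in (-T)..T, h ((k - 1 / 2 : ℝ) + y * I) := by
      apply intervalIntegral.integral_congr
      intro y _
      exact hgh _ (hk'' _ y (by linarith))
    rw [← e1, ← e2, ← e3, ← e4]
    exact hz
  -- horizontal sides
  have hM0 : 0 ≤ M := (norm_nonneg _).trans
    (hM (k : ℂ) (by rw [intCast_re]; linarith) (by rw [intCast_re]; linarith))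
  have hhor : ∀ σ : ℝ, |σ| = 1 → Tendsto (fun T : ℝ =>
      ∫ x : ℝ in (k - 1 / 2 : ℝ)..(k + 1 / 2 : ℝ), h (x + (σ * T : ℝ) * I)) atTop (𝓝 0) := by
    intro σ hσ
    have hbound : Tendsto (fun T : ℝ => M * (Real.pi ^ 3 * (2 / T ^ 2)) + (‖R k‖ * (1 / T ^ 3) +
        ‖R1 k‖ * (1 / T ^ 2) + ‖R2 k‖ * (1 / T ^ 1))) atTop (𝓝 0) := by
      have t1 : Tendsto (fun T : ℝ => 1 / T ^ 1) atTop (𝓝 0) := by
        simp only [one_div]
        exact tendsto_inv_atTop_zero.comp (tendsto_pow_atTop one_ne_zero)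
      have t2 : Tendsto (fun T : ℝ => 1 / T ^ 2) atTop (𝓝 0) := by
        simp only [one_div]
        exact tendsto_inv_atTop_zero.comp (tendsto_pow_atTop two_ne_zero)
      have t3 : Tendsto (fun T : ℝ => 1 / T ^ 3) atTop (𝓝 0) := by
        simp only [one_div]
        exact tendsto_inv_atTop_zero.comp (tendsto_pow_atTop three_ne_zero)
      have t4 : Tendsto (fun T : ℝ => M * (Real.pi ^ 3 * (2 / T ^ 2))) atTop (𝓝 0) := by
        have : (fun T : ℝ => M * (Real.pi ^ 3 * (2 / T ^ 2))) =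
          fun T : ℝ => (M * Real.pi ^ 3 * 2) * (1 / T ^ 2) := by funext T; ring
        rw [this]
        simpa using t2.const_mul (M * Real.pi ^ 3 * 2)
      simpa using t4.add (((t3.const_mul ‖R k‖).add (t2.const_mul ‖R1 k‖)).add
        (t1.const_mul ‖R2 k‖))
    apply squeeze_zero_norm' _ hbound
    filter_upwards [eventually_ge_atTop 1] with T hT
    have hT0 : 0 < T := by linarith
    have hlen : |(k + 1 / 2 : ℝ) - (k - 1 / 2)| = 1 := by
      rw [show (k + 1 / 2 : ℝ) - (k - 1 / 2) = 1 by ring, abs_one]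
    have key := intervalIntegral.norm_integral_le_of_norm_le_const (a := (k - 1 / 2 : ℝ))
      (b := (k + 1 / 2 : ℝ)) (f := fun x : ℝ => h (x + (σ * T : ℝ) * I))
      (C := M * (Real.pi ^ 3 * (2 / T ^ 2)) + (‖R k‖ * (1 / T ^ 3) +
        ‖R1 k‖ * (1 / T ^ 2) + ‖R2 k‖ * (1 / T ^ 1))) ?_
    · rw [hlen, mul_one] at key
      exact key
    · intro x hx
      rw [uIoc_of_le (by linarith)] at hx
      have him : ((x : ℂ) + (σ * T : ℝ) * I).im = σ * T := by simp
      have hre : ((x : ℂ) + (σ * T : ℝ) * I).re = x := by simp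
      have habs : |((x : ℂ) + (σ * T : ℝ) * I).im| = T := by
        rw [him, abs_mul, hσ, one_mul, abs_of_pos hT0]
      have hn : T ≤ ‖((x : ℂ) + (σ * T : ℝ) * I) - k‖ := by
        have := Complex.abs_im_le_norm (((x : ℂ) + (σ * T : ℝ) * I) - k)
        rw [Complex.sub_im, intCast_im, sub_zero, habs] at this
        exact this
      rw [hh, hP]
      simp only
      refine (norm_sub_le _ _).trans ?_
      gcongr ?_ + ?_
      · rw [norm_mul]
        have a1 := hM ((x : ℂ) + (σ * T : ℝ) * I) (by rw [hre]; exact hx.1.le)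
          (by rw [hre]; exact hx.2)
        have a2 := norm_Ker_le ((x : ℂ) + (σ * T : ℝ) * I) (by rw [habs]; exact hT)
        rw [habs] at a2
        gcongr
      · refine (norm_add₃_le).trans ?_
        rw [norm_mul, norm_mul, norm_mul, norm_div, norm_div, norm_div, norm_one, norm_pow,
          norm_pow, norm_pow]
        gcongr
  have hhor1 := hhor (-1) (by norm_num)
  have hhor2 := hhor 1 (by norm_num)
  -- vertical sides
  have hcont : ∀ m : ℤ, (a < m + 1 / 2) →
      Continuous fun y : ℝ => R ((m : ℂ) + 1 / 2 + y * I) := by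
    intro m hm
    refine hR.continuousOn.comp_continuous (by fun_prop) ?_
    intro y
    show a < ((m : ℂ) + 1 / 2 + y * I).re
    simp
    linarith
  have hi1 : Integrable fun y : ℝ => R ((k : ℂ) + 1 / 2 + y * I) *
      Ker ((k : ℂ) + 1 / 2 + y * I) := by
    refine integrable_line (M := M) (hcont k (by linarith)) fun y => ?_
    apply hM
    · simp; linarith
    · simp
  have hi2 : Integrable fun y : ℝ => R (((k - 1 : ℤ) : ℂ) + 1 / 2 + y * I) *
      Ker (((k - 1 : ℤ) : ℂ) + 1 / 2 + y * I) := by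
    refine integrable_line (M := M) (hcont (k - 1) (by push_cast; linarith)) fun y => ?_
    apply hM
    · simp; linarith
    · simp
  have hv1 := intervalIntegral_tendsto_integral hi1 tendsto_neg_atTop_atBot tendsto_id
  have hv2 := intervalIntegral_tendsto_integral hi2 tendsto_neg_atTop_atBot tendsto_id
  have hPl : ∀ c : ℝ, c ≠ 0 → ∀ T : ℝ, ∫ y : ℝ in (-T)..T, P ((k + c : ℝ) + y * I) =
      R k * (∫ y in (-T)..T, 1 / ((c : ℂ) + y * I) ^ 3) +
      R1 k * (∫ y in (-T)..T, 1 / ((c : ℂ) + y * I) ^ 2) +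
      R2 k * (∫ y in (-T)..T, 1 / ((c : ℂ) + y * I) ^ 1) := by
    intro c hc T
    have i1 := (continuous_inv_pow hc 1).intervalIntegrable (μ := volume) (-T) T
    have i2 := (continuous_inv_pow hc 2).intervalIntegrable (μ := volume) (-T) T
    have i3 := (continuous_inv_pow hc 3).intervalIntegrable (μ := volume) (-T) T
    rw [← intervalIntegral.integral_const_mul, ← intervalIntegral.integral_const_mul,
      ← intervalIntegral.integral_const_mul, ← intervalIntegral.integral_add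
      (i3.const_mul _) (i2.const_mul _), ← intervalIntegral.integral_add
      ((i3.const_mul _).add (i2.const_mul _)) (i1.const_mul _)]
    apply intervalIntegral.integral_congr
    intro y _
    have e : (((k + c : ℝ) : ℂ) + y * I) - k = (c : ℂ) + y * I := by push_cast; ring
    rw [hP]
    simp only [e]
  have hsplit : ∀ m : ℤ, a < m + 1 / 2 → ∀ c : ℝ, c ≠ 0 → (m : ℝ) + 1 / 2 = k + c → ∀ T : ℝ,
      ∫ y : ℝ in (-T)..T, h ((k + c : ℝ) + y * I) =
      (∫ y : ℝ in (-T)..T, R ((m : ℂ) + 1 / 2 + y * I) * Ker ((m : ℂ) + 1 / 2 + y * I)) -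
      ∫ y : ℝ in (-T)..T, P ((k + c : ℝ) + y * I) := by
    intro m hm c hc hmc T
    have hPc : Continuous fun y : ℝ => P ((k + c : ℝ) + y * I) := by
      have e : (fun y : ℝ => P ((k + c : ℝ) + y * I)) = fun y : ℝ =>
          R k * (1 / ((c : ℂ) + y * I) ^ 3) + R1 k * (1 / ((c : ℂ) + y * I) ^ 2) +
          R2 k * (1 / ((c : ℂ) + y * I) ^ 1) := by
        funext y
        have e : (((k + c : ℝ) : ℂ) + y * I) - k = (c : ℂ) + y * I := by push_cast; ring
        rw [hP]
        simp only [e]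
      rw [e]
      exact ((continuous_const.mul (continuous_inv_pow hc 3)).add
        (continuous_const.mul (continuous_inv_pow hc 2))).add
        (continuous_const.mul (continuous_inv_pow hc 1))
    have i1 : IntervalIntegrable (fun y : ℝ => R ((m : ℂ) + 1 / 2 + y * I) *
        Ker ((m : ℂ) + 1 / 2 + y * I)) volume (-T) T :=
      ((hcont m hm).mul (Ker_line_aesm m)).intervalIntegrable _ _
    rw [← intervalIntegral.integral_sub i1 (hPc.intervalIntegrable _ _)]
    apply intervalIntegral.integral_congr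
    intro y _
    have e : (((k + c : ℝ) : ℂ) + y * I) = (m : ℂ) + 1 / 2 + y * I := by
      rw [← hmc]; push_cast; ring
    rw [hh]
    simp only [e]
  have hs1 : ∀ T : ℝ, ∫ y : ℝ in (-T)..T, h ((k + 1 / 2 : ℝ) + y * I) =
      (∫ y : ℝ in (-T)..T, R ((k : ℂ) + 1 / 2 + y * I) * Ker ((k : ℂ) + 1 / 2 + y * I)) -
      ∫ y : ℝ in (-T)..T, P ((k + 1 / 2 : ℝ) + y * I) :=
    hsplit k (by linarith) (1 / 2) (by norm_num) rfl
  have hs2 : ∀ T : ℝ, ∫ y : ℝ in (-T)..T, h ((k + -(1 / 2) : ℝ) + y * I) =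
      (∫ y : ℝ in (-T)..T, R (((k - 1 : ℤ) : ℂ) + 1 / 2 + y * I) *
        Ker (((k - 1 : ℤ) : ℂ) + 1 / 2 + y * I)) -
      ∫ y : ℝ in (-T)..T, P ((k + -(1 / 2) : ℝ) + y * I) :=
    hsplit (k - 1) (by push_cast; linarith) (-(1 / 2)) (by norm_num) (by push_cast; ring)
  have hPlim : Tendsto (fun T : ℝ => (∫ y : ℝ in (-T)..T, P ((k + 1 / 2 : ℝ) + y * I)) -
      ∫ y : ℝ in (-T)..T, P ((k + -(1 / 2) : ℝ) + y * I)) atTop
      (𝓝 (R2 k * ((2 * Real.pi : ℝ) : ℂ))) := by
    simp_rw [hPl (1 / 2) (by norm_num), hPl (-(1 / 2)) (by norm_num)]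
    have a3 := (tendsto_A3 (show (1 / 2 : ℝ) ≠ 0 by norm_num)).const_mul (R k)
    have a3' := (tendsto_A3 (show (-(1 / 2) : ℝ) ≠ 0 by norm_num)).const_mul (R k)
    have a2 := (tendsto_A2 (show (1 / 2 : ℝ) ≠ 0 by norm_num)).const_mul (R1 k)
    have a2' := (tendsto_A2 (show (-(1 / 2) : ℝ) ≠ 0 by norm_num)).const_mul (R1 k)
    have a1 := tendsto_A1.const_mul (R2 k)
    have a := ((a3.sub a3').add (a2.sub a2')).add a1
    simp only [mul_zero, sub_zero, add_zero, zero_add] at a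
    refine a.congr fun T => ?_
    ring
  have hV : Tendsto (fun T : ℝ => (∫ y : ℝ in (-T)..T, h ((k + 1 / 2 : ℝ) + y * I)) -
      ∫ y : ℝ in (-T)..T, h ((k + -(1 / 2) : ℝ) + y * I)) atTop
      (𝓝 (IR R k - IR R (k - 1) - R2 k * ((2 * Real.pi : ℝ) : ℂ))) := by
    have a := (hv1.sub hv2).sub hPlim
    refine a.congr fun T => ?_
    rw [hs1, hs2]
    simp only [id]
    ring
  have hV0 : Tendsto (fun T : ℝ => (∫ y : ℝ in (-T)..T, h ((k + 1 / 2 : ℝ) + y * I)) -
      ∫ y : ℝ in (-T)..T, h ((k + -(1 / 2) : ℝ) + y * I)) atTop (𝓝 0) := by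
    have a := ((hhor2.sub hhor1).mul_const (-I))
    rw [sub_zero, zero_mul] at a
    refine a.congr' ?_
    filter_upwards [eventually_gt_atTop 0] with T hT
    have b := hrect T hT
    have e1 : (k : ℝ) - 1 / 2 = k + -(1 / 2) := by ring
    rw [e1] at b ⊢
    simp only [one_mul, neg_mul] at b ⊢
    have hI : I * I = -1 := Complex.I_mul_I
    linear_combination I * b + (-(∫ y : ℝ in (-T)..T, h ((k + 1 / 2 : ℝ) + y * I)) +
      ∫ y : ℝ in (-T)..T, h ((k + -(1 / 2) : ℝ) + y * I)) * hI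
  have hfin := tendsto_nhds_unique hV hV0
  rw [hR2k] at hfin
  have : IR R k - IR R (k - 1) = iteratedDeriv 2 R k / 2 * ((2 * Real.pi : ℝ) : ℂ) := by
    linear_combination hfin
  rw [this]
  push_cast
  ring

end Pool.Agent.Zeta579
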