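import Pool.Agent.Zeta579.KerK
import Pool.Agent.Zeta579.Strip

/-!
# Moving the line of integration across one integer, general order of derivation
-/

namespace Pool.Agent.Zeta579

open Filter Topology Set Complex MeasureTheory

/-- the integral over a half-integer line -/
noncomputable def IRK (k : ℕ) (R : ℂ → ℂ) (m : ℤ) : ℂ :=
  ∫ y : ℝ, R ((m : ℂ) + 1 / 2 + y * I) * KerK k ((m : ℂ) + 1 / 2 + y * I)

theorem continuous_KerK_line (k : ℕ) (m : ℤ) :
    Continuous (fun y : ℝ => KerK k ((m : ℂ) + 1 / 2 + y * I)) := by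
  rw [continuous_iff_continuousAt]
  intro y
  have h1 : sin (Real.pi * ((m : ℂ) + 1 / 2 + y * I)) ≠ 0 := by
    apply sin_pi_ne_zero (k := m)
    · simp
      norm_num
    · intro h
      have := congrArg Complex.re h
      simp at this
  have h2 := (differentiableAt_KerK k h1).continuousAt
  have h3 : ContinuousAt (fun y : ℝ => (m : ℂ) + 1 / 2 + y * I) y := by fun_prop
  exact ContinuousAt.comp (g := KerK k) h2 h3

theorem integrable_lineK {k : ℕ} {R : ℂ → ℂ} {m : ℤ} {M : ℝ}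
    (hc : Continuous fun y : ℝ => R ((m : ℂ) + 1 / 2 + y * I))
    (hM : ∀ y : ℝ, ‖R ((m : ℂ) + 1 / 2 + y * I)‖ ≤ M) :
    Integrable fun y : ℝ => R ((m : ℂ) + 1 / 2 + y * I) *
      KerK (k + 1) ((m : ℂ) + 1 / 2 + y * I) := by
  obtain ⟨B, hB0, hB⟩ := norm_KerK_half k
  have h1 : Integrable (fun y : ℝ => M * (B * Real.exp (-(2 * Real.pi * |y|)))) :=
    ((integrable_exp_abs (by positivity)).const_mul _).const_mul _
  refine h1.mono' (hc.mul (continuous_KerK_line _ m)).aestronglyMeasurable ?_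
  filter_upwards with y
  rw [norm_mul]
  have hM0 : 0 ≤ M := (norm_nonneg _).trans (hM y)
  have := hB m y
  have := hM y
  gcongr

/-- size of the integral from a pointwise bound on the line -/
theorem norm_IRK_le (k : ℕ) : ∃ B : ℝ, 0 ≤ B ∧ ∀ (R : ℂ → ℂ) (m : ℤ) (g : ℝ → ℝ), Integrable g →
    (∀ y : ℝ, ‖R ((m : ℂ) + 1 / 2 + y * I)‖ * Real.exp (-(2 * Real.pi * |y|)) ≤ g y) →
    ‖IRK (k + 1) R m‖ ≤ B * ∫ y : ℝ, g y := by
  obtain ⟨B, hB0, hB⟩ := norm_KerK_half k
  refine ⟨B, hB0, fun R m g hg hR => ?_⟩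
  rw [← integral_const_mul]
  refine norm_integral_le_of_norm_le (hg.const_mul _) ?_
  filter_upwards with y
  rw [norm_mul]
  have h1 := hB m y
  calc ‖R ((m : ℂ) + 1 / 2 + y * I)‖ * ‖KerK (k + 1) ((m : ℂ) + 1 / 2 + y * I)‖
      ≤ ‖R ((m : ℂ) + 1 / 2 + y * I)‖ * (B * Real.exp (-(2 * Real.pi * |y|))) := by
        gcongr
    _ = B * (‖R ((m : ℂ) + 1 / 2 + y * I)‖ * Real.exp (-(2 * Real.pi * |y|))) := by
        ring
    _ ≤ _ := by
        have := hR y
        gcongr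

/-! ### the principal part -/

theorem integral_inv_powK {c : ℝ} (hc : c ≠ 0) {q : ℕ} (hq : q ≠ 0) (T : ℝ) :
    ∫ y in (-T)..T, 1 / ((c : ℂ) + y * I) ^ (q + 1) =
      I / q * (1 / ((c : ℂ) + T * I) ^ q) - I / q * (1 / ((c : ℂ) + (-T : ℝ) * I) ^ q) := by
  rw [intervalIntegral.integral_eq_sub_of_hasDerivAt
    (f := fun y : ℝ => I / q * (1 / ((c : ℂ) + y * I) ^ q))]
  · intro y _
    have h0 := ne_zero_of_re hc y
    have h1 : HasDerivAt (fun y : ℝ => ((c : ℂ) + y * I) ^ q)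
      ((q : ℂ) * ((c : ℂ) + y * I) ^ (q - 1) * I) y := (hasDerivAt_line c y).fun_pow q
    have h2 := (h1.fun_inv (pow_ne_zero q h0)).const_mul (I / q)
    have e : (fun y : ℝ => I / q * (1 / ((c : ℂ) + y * I) ^ q)) =
        fun y : ℝ => I / q * (((c : ℂ) + y * I) ^ q)⁻¹ := by
      funext y; rw [one_div]
    rw [e]
    refine h2.congr_deriv ?_
    generalize (c : ℂ) + y * I = w at h0
    obtain ⟨r, rfl⟩ := Nat.exists_eq_succ_of_ne_zero hq
    have hq' : ((r.succ : ℕ) : ℂ) ≠ 0 := by exact_mod_cast hq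
    have h4 : I / (r.succ : ℕ) * (-(((r.succ : ℕ) : ℂ) * w ^ (r.succ - 1) * I) / (w ^ r.succ) ^ 2) =
        -(I * I) * (w ^ r / (w ^ (r + 1)) ^ 2) := by
      rw [Nat.succ_sub_one]
      field_simp
    rw [h4, Complex.I_mul_I, neg_neg, one_mul]
    have h5 : (w ^ (r + 1)) ^ 2 = w ^ r * w ^ (r.succ + 1) := by
      rw [← pow_mul, ← pow_add]
      congr 1
      simp only [Nat.succ_eq_add_one]
      ring
    rw [h5]
    have h6 : w ^ r ≠ 0 := pow_ne_zero _ h0
    field_simp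
  · exact (continuous_inv_pow hc _).intervalIntegrable _ _

theorem tendsto_AK {c : ℝ} (hc : c ≠ 0) {q : ℕ} (hq : q ≠ 0) :
    Tendsto (fun T : ℝ => ∫ y in (-T)..T, 1 / ((c : ℂ) + y * I) ^ (q + 1)) atTop (𝓝 0) := by
  simp_rw [integral_inv_powK hc hq]
  have h1 := tendsto_inv_pow c hq tendsto_abs_id
  have h2 := tendsto_inv_pow c hq tendsto_abs_neg
  simpa using (h1.const_mul (I / q)).sub (h2.const_mul (I / q))

/-- Taylor expansion with holomorphic remainder -/
theorem taylor_rem {f : ℂ → ℂ} {c : ℂ} (hf : AnalyticAt ℂ f c) (n : ℕ) :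
    ∃ G : ℂ → ℂ, AnalyticAt ℂ G c ∧ ∀ t, f t =
      ∑ j ∈ Finset.range n, (iteratedDeriv j f c / (j.factorial : ℂ)) * (t - c) ^ j +
        (t - c) ^ n * G t := by
  set p := FormalMultilinearSeries.ofScalars ℂ
    (fun n ↦ iteratedDeriv n f c / (n.factorial : ℂ)) with hp
  have hfp : HasFPowerSeriesAt f p c := AnalyticAt.hasFPowerSeriesAt hf
  set G : ℕ → ℂ → ℂ := fun n => (Function.swap dslope c)^[n] f with hG
  have hGp : ∀ n, HasFPowerSeriesAt (G n) (FormalMultilinearSeries.fslope^[n] p) c :=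
    fun n => HasFPowerSeriesAt.has_fpower_series_iterate_dslope_fslope n hfp
  have hGc : ∀ n, G n c = iteratedDeriv n f c / (n.factorial : ℂ) := by
    intro n
    have h1 := (hGp n).coeff_zero 1
    have h2 : (FormalMultilinearSeries.fslope^[n] p).coeff 0 = p.coeff (0 + n) :=
      FormalMultilinearSeries.coeff_iterate_fslope n 0
    rw [hp, FormalMultilinearSeries.coeff_ofScalars, zero_add] at h2
    rw [← h1, ← h2]
    rfl
  refine ⟨G n, ⟨_, hGp n⟩, ?_⟩
  induction n with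
  | zero => intro t; simp [hG]
  | succ n ih =>
    intro t
    have h1 : G (n + 1) = dslope (G n) c := by
      rw [hG]
      simp only [Function.iterate_succ_apply']
    have h2 : G n t = G n c + (t - c) * G (n + 1) t := by
      rw [h1]
      have := sub_smul_dslope (G n) c t
      rw [smul_eq_mul] at this
      rw [this]; ring
    rw [ih t, Finset.sum_range_succ, h2, hGc n]
    ring

/-- **Moving the line across one integer**, general order. -/
theorem stripK {k0 : ℕ} {R : ℂ → ℂ} {a M : ℝ} {m : ℤ} (ha : a < m - 1 / 2)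
    (hR : DifferentiableOn ℂ R {t | a < t.re})
    (hM : ∀ t : ℂ, (m : ℝ) - 1 / 2 ≤ t.re → t.re ≤ m + 1 / 2 → ‖R t‖ ≤ M) :
    IRK (k0 + 1) R m - IRK (k0 + 1) R (m - 1) =
      2 * Real.pi * (iteratedDeriv (k0 + 1) R m / ((k0 + 1).factorial : ℂ)) := by
  have hUo : IsOpen {t : ℂ | a < t.re} := isOpen_lt continuous_const Complex.continuous_re
  have hkU : (m : ℂ) ∈ {t : ℂ | a < t.re} := by
    show a < ((m : ℂ)).re
    rw [intCast_re]; linarith
  have hkn := hUo.mem_nhds hkU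
  have hRa : AnalyticAt ℂ R m := hR.analyticAt hkn
  obtain ⟨G, hGa, hG⟩ := taylor_rem hRa (k0 + 2)
  obtain ⟨H, hHa, hH⟩ := KerK_near_zero (k0 + 1)
  obtain ⟨b, hb⟩ : ∃ b : ℕ → ℂ, b = fun j => iteratedDeriv j R m / (j.factorial : ℂ) := ⟨_, rfl⟩
  -- principal part and the regular part
  obtain ⟨P, hP⟩ : ∃ P : ℂ → ℂ, P = fun t => ∑ j ∈ Finset.range (k0 + 2),
    b j * (1 / (t - m) ^ (k0 + 1 - j + 1)) := ⟨_, rfl⟩
  obtain ⟨h, hh⟩ : ∃ h : ℂ → ℂ, h = fun t => R t * KerK (k0 + 1) t - P t := ⟨_, rfl⟩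
  have hRP : ∀ t : ℂ, t ≠ m → R t * (1 / (t - m) ^ (k0 + 2)) = P t + G t := by
    intro t ht
    have h0 : t - m ≠ 0 := sub_ne_zero.2 ht
    rw [hG t, add_mul, Finset.sum_mul, hP]
    congr 1
    · refine Finset.sum_congr rfl fun j hj => ?_
      have hj' : j < k0 + 2 := Finset.mem_range.1 hj
      rw [hb]
      simp only
      rw [mul_assoc]
      congr 1
      have e : (t - (m : ℂ)) ^ (k0 + 2) = (t - m) ^ j * (t - m) ^ (k0 + 1 - j + 1) := by
        rw [← pow_add]
        congr 1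
        omega
      rw [e]
      have h1 : (t - (m : ℂ)) ^ j ≠ 0 := pow_ne_zero _ h0
      have h2 : (t - (m : ℂ)) ^ (k0 + 1 - j + 1) ≠ 0 := pow_ne_zero _ h0
      field_simp
    · have h1 : (t - (m : ℂ)) ^ (k0 + 2) ≠ 0 := pow_ne_zero _ h0
      field_simp
  have hdiff : ∀ t : ℂ, a < t.re → |t.re - m| < 1 → t ≠ m → DifferentiableAt ℂ h t := by
    intro t h1 h2 h3
    have h0 : t - m ≠ 0 := sub_ne_zero.2 h3
    have k1 := hR.differentiableAt (hUo.mem_nhds h1)
    have k2 := differentiableAt_KerK (k0 + 1) (sin_pi_ne_zero h2 h3)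
    rw [hh, hP]
    refine (k1.fun_mul k2).fun_sub ?_
    refine DifferentiableAt.fun_sum fun j _ => ?_
    have q1 : (t - (m : ℂ)) ^ (k0 + 1 - j + 1) ≠ 0 := pow_ne_zero _ h0
    fun_prop (disch := assumption)
  -- removable singularity
  have hHm : ∀ᶠ t : ℂ in 𝓝 (m : ℂ), t ≠ m → KerK (k0 + 1) t = 1 / (t - m) ^ (k0 + 2) + H (t - m) := by
    have h1 : ∀ᶠ s in 𝓝 (0 : ℂ), s ≠ 0 → KerK (k0 + 1) s = 1 / s ^ (k0 + 2) + H s :=
      eventually_nhdsWithin_iff.1 hH
    have h2 : Tendsto (fun t : ℂ => t - m) (𝓝 (m : ℂ)) (𝓝 0) := by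
      have : ContinuousAt (fun t : ℂ => t - m) (m : ℂ) := by fun_prop
      simpa [ContinuousAt] using this
    filter_upwards [h2.eventually h1] with t ht htm
    have h3 := ht (sub_ne_zero.2 htm)
    have e : KerK (k0 + 1) (t - m) = KerK (k0 + 1) t := by
      have := KerK_add_int (k0 + 1) (t - m) m
      rw [sub_add_cancel] at this
      exact this.symm
    rwa [e] at h3
  have hbdd : ∃ B : ℝ, ∀ᶠ t : ℂ in 𝓝 (m : ℂ), ‖R t‖ ≤ B ∧ ‖G t‖ ≤ B ∧ ‖H (t - m)‖ ≤ B := by
    have c1 : ContinuousAt (fun t => ‖R t‖) (m : ℂ) :=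
      (hR.differentiableAt hkn).continuousAt.norm
    have c2 : ContinuousAt (fun t => ‖G t‖) (m : ℂ) := hGa.continuousAt.norm
    have c3 : ContinuousAt (fun t : ℂ => ‖H (t - m)‖) (m : ℂ) := by
      have c4 : ContinuousAt H ((m : ℂ) - m) := by rw [sub_self]; exact hHa.continuousAt
      have c5 : ContinuousAt (fun t : ℂ => t - m) (m : ℂ) := by fun_prop
      exact (ContinuousAt.comp (g := H) (f := fun t : ℂ => t - m) c4 c5).norm
    refine ⟨max (max (‖R m‖ + 1) (‖G m‖ + 1)) (‖H ((m : ℂ) - m)‖ + 1), ?_⟩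
    have e1 := c1.eventually (gt_mem_nhds (show ‖R m‖ < ‖R m‖ + 1 by linarith))
    have e2 := c2.eventually (gt_mem_nhds (show ‖G m‖ < ‖G m‖ + 1 by linarith))
    have e3 := c3.eventually (gt_mem_nhds (show ‖H ((m : ℂ) - m)‖ < ‖H ((m : ℂ) - m)‖ + 1 by linarith))
    filter_upwards [e1, e2, e3] with t h1 h2 h3
    exact ⟨h1.le.trans ((le_max_left _ _).trans (le_max_left _ _)),
      h2.le.trans ((le_max_right _ _).trans (le_max_left _ _)), h3.le.trans (le_max_right _ _)⟩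
  obtain ⟨B, hB⟩ := hbdd
  have hnear : ∀ᶠ t : ℂ in 𝓝 (m : ℂ), (‖R t‖ ≤ B ∧ ‖G t‖ ≤ B ∧ ‖H (t - m)‖ ≤ B) ∧ a < t.re ∧
      |t.re - m| < 1 ∧ (t ≠ m → KerK (k0 + 1) t = 1 / (t - m) ^ (k0 + 2) + H (t - m)) := by
    refine hB.and (Filter.Eventually.and (hUo.mem_nhds hkU) (Filter.Eventually.and ?_ hHm))
    have c : ContinuousAt (fun t : ℂ => |t.re - m|) (m : ℂ) := by fun_prop
    exact c.eventually (gt_mem_nhds (by simp))
  obtain ⟨s, hs, hs2⟩ := Filter.eventually_iff_exists_mem.1 hnear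
  obtain ⟨g, hg⟩ : ∃ g, g = Function.update h m (limUnder (𝓝[≠] (m : ℂ)) h) := ⟨_, rfl⟩
  have hgd : DifferentiableOn ℂ g s := by
    rw [hg]
    apply differentiableOn_update_limUnder_of_bddAbove hs
    · intro t ht
      have := hs2 t ht.1
      exact (hdiff t this.2.1 this.2.2.1 ht.2).differentiableWithinAt
    · refine ⟨B * B + B, ?_⟩
      rintro x ⟨t, ht, rfl⟩
      have h1 := hs2 t ht.1
      have h2 : t ≠ m := ht.2
      simp only [Function.comp]
      have hB0 : 0 ≤ B := (norm_nonneg _).trans h1.1.1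
      have h3 : h t = R t * H (t - m) + G t := by
        rw [hh]
        simp only
        rw [h1.2.2.2 h2, mul_add, hRP t h2]
        ring
      rw [h3]
      calc ‖R t * H (t - m) + G t‖ ≤ ‖R t‖ * ‖H (t - m)‖ + ‖G t‖ := by
            rw [← norm_mul]; exact norm_add_le _ _
        _ ≤ B * B + B := by
            have a1 := h1.1.1
            have a2 := h1.1.2.1
            have a3 := h1.1.2.2
            gcongr
  have hgdiff : ∀ t : ℂ, a < t.re → |t.re - m| < 1 → DifferentiableAt ℂ g t := by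
    intro t h1 h2
    by_cases h3 : t = m
    · rw [h3]
      exact hgd.differentiableAt hs
    · refine (hdiff t h1 h2 h3).congr_of_eventuallyEq ?_
      filter_upwards [isOpen_ne.mem_nhds h3] with u hu
      rw [hg, Function.update_of_ne hu]
  have hgh : ∀ t : ℂ, t ≠ m → g t = h t := by
    intro t ht
    rw [hg, Function.update_of_ne ht]
  -- the rectangle
  have hrect : ∀ T : ℝ, 0 < T →
      (∫ x : ℝ in (m - 1 / 2 : ℝ)..(m + 1 / 2 : ℝ), h (x + (-T : ℝ) * I)) -
      (∫ x : ℝ in (m - 1 / 2 : ℝ)..(m + 1 / 2 : ℝ), h (x + (T : ℝ) * I)) +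
      I * (∫ y : ℝ in (-T)..T, h ((m + 1 / 2 : ℝ) + y * I)) -
      I * (∫ y : ℝ in (-T)..T, h ((m - 1 / 2 : ℝ) + y * I)) = 0 := by
    intro T hT
    have hz := integral_boundary_rect_eq_zero_of_differentiableOn g
      (⟨m - 1 / 2, -T⟩ : ℂ) (⟨m + 1 / 2, T⟩ : ℂ) (by
        intro t ht
        rw [mem_reProdIm] at ht
        simp only at ht
        rw [uIcc_of_le (by linarith)] at ht
        refine (hgdiff t ?_ ?_).differentiableWithinAt
        · have := ht.1.1; linarith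
        · have h1 := ht.1.1
          have h2 := ht.1.2
          rw [abs_lt]; constructor <;> linarith)
    simp only [smul_eq_mul] at hz
    have hk' : ∀ x y : ℝ, y ≠ 0 → (x : ℂ) + y * I ≠ m := by
      intro x y hy he
      have := congrArg Complex.im he
      simp at this
      exact hy this
    have hk'' : ∀ x y : ℝ, x ≠ m → (x : ℂ) + y * I ≠ m := by
      intro x y hy he
      have := congrArg Complex.re he
      simp at this
      exact hy this
    have e1 : (∫ x : ℝ in (m - 1 / 2 : ℝ)..(m + 1 / 2 : ℝ), g (x + (-T : ℝ) * I)) =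
        ∫ x : ℝ in (m - 1 / 2 : ℝ)..(m + 1 / 2 : ℝ), h (x + (-T : ℝ) * I) := by
      apply intervalIntegral.integral_congr
      intro x _
      exact hgh _ (hk' x (-T) (by linarith))
    have e2 : (∫ x : ℝ in (m - 1 / 2 : ℝ)..(m + 1 / 2 : ℝ), g (x + (T : ℝ) * I)) =
        ∫ x : ℝ in (m - 1 / 2 : ℝ)..(m + 1 / 2 : ℝ), h (x + (T : ℝ) * I) := by
      apply intervalIntegral.integral_congr
      intro x _
      exact hgh _ (hk' x T (by linarith))
    have e3 : (∫ y : ℝ in (-T)..T, g ((m + 1 / 2 : ℝ) + y * I)) =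
        ∫ y : ℝ in (-T)..T, h ((m + 1 / 2 : ℝ) + y * I) := by
      apply intervalIntegral.integral_congr
      intro y _
      exact hgh _ (hk'' _ y (by linarith))
    have e4 : (∫ y : ℝ in (-T)..T, g ((m - 1 / 2 : ℝ) + y * I)) =
        ∫ y : ℝ in (-T)..T, h ((m - 1 / 2 : ℝ) + y * I) := by
      apply intervalIntegral.integral_congr
      intro y _
      exact hgh _ (hk'' _ y (by linarith))
    rw [← e1, ← e2, ← e3, ← e4]
    exact hz
  -- horizontal sides
  have hM0 : 0 ≤ M := (norm_nonneg _).trans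
    (hM (m : ℂ) (by rw [intCast_re]; linarith) (by rw [intCast_re]; linarith))
  obtain ⟨B2, hB20, hB2⟩ := norm_KerK_le k0
  have hhor : ∀ σ : ℝ, |σ| = 1 → Tendsto (fun T : ℝ =>
      ∫ x : ℝ in (m - 1 / 2 : ℝ)..(m + 1 / 2 : ℝ), h (x + (σ * T : ℝ) * I)) atTop (𝓝 0) := by
    intro σ hσ
    have hbound : Tendsto (fun T : ℝ => M * (B2 * (1 / T ^ 2)) + ∑ j ∈ Finset.range (k0 + 2),
        ‖b j‖ * (1 / T ^ (k0 + 1 - j + 1))) atTop (𝓝 0) := by
      have tp : ∀ q : ℕ, q ≠ 0 → Tendsto (fun T : ℝ => 1 / T ^ q) atTop (𝓝 0) := by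
        intro q hq
        simp only [one_div]
        exact tendsto_inv_atTop_zero.comp (tendsto_pow_atTop hq)
      have t4 : Tendsto (fun T : ℝ => M * (B2 * (1 / T ^ 2))) atTop (𝓝 0) := by
        simpa using ((tp 2 two_ne_zero).const_mul B2).const_mul M
      have t5 : Tendsto (fun T : ℝ => ∑ j ∈ Finset.range (k0 + 2),
          ‖b j‖ * (1 / T ^ (k0 + 1 - j + 1))) atTop (𝓝 (∑ j ∈ Finset.range (k0 + 2), ‖b j‖ * 0)) :=
        tendsto_finsetSum _ fun j _ => (tp _ (Nat.succ_ne_zero _)).const_mul _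
      simpa using t4.add t5
    apply squeeze_zero_norm' _ hbound
    filter_upwards [eventually_ge_atTop 1] with T hT
    have hT0 : 0 < T := by linarith
    have hlen : |(m + 1 / 2 : ℝ) - (m - 1 / 2)| = 1 := by
      rw [show (m + 1 / 2 : ℝ) - (m - 1 / 2) = 1 by ring, abs_one]
    have key := intervalIntegral.norm_integral_le_of_norm_le_const (a := (m - 1 / 2 : ℝ))
      (b := (m + 1 / 2 : ℝ)) (f := fun x : ℝ => h (x + (σ * T : ℝ) * I))
      (C := M * (B2 * (1 / T ^ 2)) + ∑ j ∈ Finset.range (k0 + 2),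
        ‖b j‖ * (1 / T ^ (k0 + 1 - j + 1))) ?_
    · rw [hlen, mul_one] at key
      exact key
    · intro x hx
      rw [uIoc_of_le (by linarith)] at hx
      have him : ((x : ℂ) + (σ * T : ℝ) * I).im = σ * T := by simp
      have hre : ((x : ℂ) + (σ * T : ℝ) * I).re = x := by simp
      have habs : |((x : ℂ) + (σ * T : ℝ) * I).im| = T := by
        rw [him, abs_mul, hσ, one_mul, abs_of_pos hT0]
      have hn : T ≤ ‖((x : ℂ) + (σ * T : ℝ) * I) - m‖ := by
        have := Complex.abs_im_le_norm (((x : ℂ) + (σ * T : ℝ) * I) - m)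
        rw [Complex.sub_im, intCast_im, sub_zero, habs] at this
        exact this
      rw [hh, hP]
      simp only
      refine (norm_sub_le _ _).trans ?_
      gcongr ?_ + ?_
      · rw [norm_mul]
        have a1 := hM ((x : ℂ) + (σ * T : ℝ) * I) (by rw [hre]; exact hx.1.le)
          (by rw [hre]; exact hx.2)
        have a2 := hB2 ((x : ℂ) + (σ * T : ℝ) * I) (by rw [habs]; exact hT)
        rw [habs] at a2
        gcongr
      · refine (norm_sum_le _ _).trans (Finset.sum_le_sum fun j _ => ?_)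
        rw [norm_mul, norm_div, norm_one, norm_pow]
        gcongr
  have hhor1 := hhor (-1) (by norm_num)
  have hhor2 := hhor 1 (by norm_num)
  -- vertical sides
  have hcont : ∀ m' : ℤ, (a < m' + 1 / 2) →
      Continuous fun y : ℝ => R ((m' : ℂ) + 1 / 2 + y * I) := by
    intro m' hm
    refine hR.continuousOn.comp_continuous (by fun_prop) ?_
    intro y
    show a < ((m' : ℂ) + 1 / 2 + y * I).re
    simp
    linarith
  have hi1 : Integrable fun y : ℝ => R ((m : ℂ) + 1 / 2 + y * I) *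
      KerK (k0 + 1) ((m : ℂ) + 1 / 2 + y * I) := by
    refine integrable_lineK (M := M) (hcont m (by linarith)) fun y => ?_
    apply hM
    · simp; linarith
    · simp
  have hi2 : Integrable fun y : ℝ => R (((m - 1 : ℤ) : ℂ) + 1 / 2 + y * I) *
      KerK (k0 + 1) (((m - 1 : ℤ) : ℂ) + 1 / 2 + y * I) := by
    refine integrable_lineK (M := M) (hcont (m - 1) (by push_cast; linarith)) fun y => ?_
    apply hM
    · simp; linarith
    · simp
  have hv1 := intervalIntegral_tendsto_integral hi1 tendsto_neg_atTop_atBot tendsto_id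
  have hv2 := intervalIntegral_tendsto_integral hi2 tendsto_neg_atTop_atBot tendsto_id
  have hPe : ∀ c : ℝ, ∀ y : ℝ, P ((m + c : ℝ) + y * I) = ∑ j ∈ Finset.range (k0 + 2),
      b j * (1 / ((c : ℂ) + y * I) ^ (k0 + 1 - j + 1)) := by
    intro c y
    have e : (((m + c : ℝ) : ℂ) + y * I) - m = (c : ℂ) + y * I := by push_cast; ring
    rw [hP]
    simp only [e]
  have hPl : ∀ c : ℝ, c ≠ 0 → ∀ T : ℝ, ∫ y : ℝ in (-T)..T, P ((m + c : ℝ) + y * I) =
      ∑ j ∈ Finset.range (k0 + 2),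
        b j * (∫ y in (-T)..T, 1 / ((c : ℂ) + y * I) ^ (k0 + 1 - j + 1)) := by
    intro c hc T
    simp_rw [hPe c]
    rw [intervalIntegral.integral_finsetSum]
    · refine Finset.sum_congr rfl fun j _ => ?_
      rw [intervalIntegral.integral_const_mul]
    · intro j _
      exact ((continuous_inv_pow hc _).intervalIntegrable (μ := volume) (-T) T).const_mul _
  have hsplit : ∀ m' : ℤ, a < m' + 1 / 2 → ∀ c : ℝ, c ≠ 0 → (m' : ℝ) + 1 / 2 = m + c → ∀ T : ℝ,
      ∫ y : ℝ in (-T)..T, h ((m + c : ℝ) + y * I) =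
      (∫ y : ℝ in (-T)..T, R ((m' : ℂ) + 1 / 2 + y * I) *
        KerK (k0 + 1) ((m' : ℂ) + 1 / 2 + y * I)) -
      ∫ y : ℝ in (-T)..T, P ((m + c : ℝ) + y * I) := by
    intro m' hm c hc hmc T
    have hPc : Continuous fun y : ℝ => P ((m + c : ℝ) + y * I) := by
      simp_rw [hPe c]
      exact continuous_finsetSum _ fun j _ => continuous_const.mul (continuous_inv_pow hc _)
    have i1 : IntervalIntegrable (fun y : ℝ => R ((m' : ℂ) + 1 / 2 + y * I) *
        KerK (k0 + 1) ((m' : ℂ) + 1 / 2 + y * I)) volume (-T) T :=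
      ((hcont m' hm).mul (continuous_KerK_line _ m')).intervalIntegrable _ _
    rw [← intervalIntegral.integral_sub i1 (hPc.intervalIntegrable _ _)]
    apply intervalIntegral.integral_congr
    intro y _
    have e : (((m + c : ℝ) : ℂ) + y * I) = (m' : ℂ) + 1 / 2 + y * I := by
      rw [← hmc]; push_cast; ring
    rw [hh]
    simp only [e]
  have hs1 : ∀ T : ℝ, ∫ y : ℝ in (-T)..T, h ((m + 1 / 2 : ℝ) + y * I) =
      (∫ y : ℝ in (-T)..T, R ((m : ℂ) + 1 / 2 + y * I) *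
        KerK (k0 + 1) ((m : ℂ) + 1 / 2 + y * I)) -
      ∫ y : ℝ in (-T)..T, P ((m + 1 / 2 : ℝ) + y * I) :=
    hsplit m (by linarith) (1 / 2) (by norm_num) rfl
  have hs2 : ∀ T : ℝ, ∫ y : ℝ in (-T)..T, h ((m + -(1 / 2) : ℝ) + y * I) =
      (∫ y : ℝ in (-T)..T, R (((m - 1 : ℤ) : ℂ) + 1 / 2 + y * I) *
        KerK (k0 + 1) (((m - 1 : ℤ) : ℂ) + 1 / 2 + y * I)) -
      ∫ y : ℝ in (-T)..T, P ((m + -(1 / 2) : ℝ) + y * I) :=
    hsplit (m - 1) (by push_cast; linarith) (-(1 / 2)) (by norm_num) (by push_cast; ring)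
  have hPlim : Tendsto (fun T : ℝ => (∫ y : ℝ in (-T)..T, P ((m + 1 / 2 : ℝ) + y * I)) -
      ∫ y : ℝ in (-T)..T, P ((m + -(1 / 2) : ℝ) + y * I)) atTop
      (𝓝 (b (k0 + 1) * ((2 * Real.pi : ℝ) : ℂ))) := by
    simp_rw [hPl (1 / 2) (by norm_num), hPl (-(1 / 2)) (by norm_num)]
    have hlt : ∀ c : ℝ, c ≠ 0 → Tendsto (fun T : ℝ => ∑ j ∈ Finset.range (k0 + 1),
        b j * (∫ y in (-T)..T, 1 / ((c : ℂ) + y * I) ^ (k0 + 1 - j + 1))) atTop (𝓝 0) := by
      intro c hc
      have : Tendsto (fun T : ℝ => ∑ j ∈ Finset.range (k0 + 1),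
        b j * (∫ y in (-T)..T, 1 / ((c : ℂ) + y * I) ^ (k0 + 1 - j + 1))) atTop
          (𝓝 (∑ j ∈ Finset.range (k0 + 1), b j * 0)) := by
        refine tendsto_finsetSum _ fun j hj => ?_
        have hj' : j < k0 + 1 := Finset.mem_range.1 hj
        exact (tendsto_AK hc (by omega)).const_mul _
      simpa using this
    have a1 := tendsto_A1.const_mul (b (k0 + 1))
    have a := ((hlt (1 / 2) (by norm_num)).sub (hlt (-(1 / 2)) (by norm_num))).add a1
    rw [sub_zero, zero_add] at a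
    refine a.congr fun T => ?_
    rw [Finset.sum_range_succ _ (k0 + 1), Finset.sum_range_succ _ (k0 + 1)]
    have e : k0 + 1 - (k0 + 1) + 1 = 1 := by omega
    rw [e]
    ring
  have hV : Tendsto (fun T : ℝ => (∫ y : ℝ in (-T)..T, h ((m + 1 / 2 : ℝ) + y * I)) -
      ∫ y : ℝ in (-T)..T, h ((m + -(1 / 2) : ℝ) + y * I)) atTop
      (𝓝 (IRK (k0 + 1) R m - IRK (k0 + 1) R (m - 1) - b (k0 + 1) * ((2 * Real.pi : ℝ) : ℂ))) := by
    have a := (hv1.sub hv2).sub hPlim
    refine a.congr fun T => ?_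
    rw [hs1, hs2]
    simp only [id]
    ring
  have hV0 : Tendsto (fun T : ℝ => (∫ y : ℝ in (-T)..T, h ((m + 1 / 2 : ℝ) + y * I)) -
      ∫ y : ℝ in (-T)..T, h ((m + -(1 / 2) : ℝ) + y * I)) atTop (𝓝 0) := by
    have a := ((hhor2.sub hhor1).mul_const (-I))
    rw [sub_zero, zero_mul] at a
    refine a.congr' ?_
    filter_upwards [eventually_gt_atTop 0] with T hT
    have b := hrect T hT
    have e1 : (m : ℝ) - 1 / 2 = m + -(1 / 2) := by ring
    rw [e1] at b ⊢
    simp only [one_mul, neg_mul] at b ⊢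
    have hI : I * I = -1 := Complex.I_mul_I
    linear_combination I * b + (-(∫ y : ℝ in (-T)..T, h ((m + 1 / 2 : ℝ) + y * I)) +
      ∫ y : ℝ in (-T)..T, h ((m + -(1 / 2) : ℝ) + y * I)) * hI
  have hfin := tendsto_nhds_unique hV hV0
  have hbk : b (k0 + 1) = iteratedDeriv (k0 + 1) R m / ((k0 + 1).factorial : ℂ) := by rw [hb]
  rw [hbk] at hfin
  have := sub_eq_zero.1 hfin
  rw [this]
  push_cast
  ring

end Pool.Agent.Zeta579
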